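import Pool.Agent.H57.FT.BadD

/-!
Section 3 of the local analysis: the results, in the form in which sections 4-6 use them.
(`HH_le`, `HH_normal`, `HH_conj`, `HH_nil` are in HHset, `rank_two` in BadA, `omega_B` in BadB.)
All statements are for a finite simple group of odd order all of whose proper subgroups have a
nilpotent derived subgroup.

Type A is `P` abelian (`hab : ∀ a ∈ P, ∀ b ∈ P, a * b = b * a`), type B is its negation.
-/

namespace H57.FT

open Subgroup H51.FT
open scoped Pointwise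

variable {G : Type*} [Group G] [Finite G] [IsSimpleGroup G]

variable (hG : _root_.commutator G = ⊤) (hodd : Odd (Nat.card G))
  (hNA : ∀ H : Subgroup G, H < ⊤ → Group.IsNilpotent (_root_.commutator H))
  {p : ℕ} [Fact p.Prime] (P : Sylow p G)

include hG hNA in
/-- elements of order `p` which are good have `H(x) = 1` -/
theorem HH_good {x : G} (hx : x ∈ P) (hxp : orderOf x = p)
    (hg : centralizer ({x} : Set G) ≤ normalizer (P : Set G)) : HH x = ⊥ := by
  exact HH_goodP hG hNA P hxp hg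

include hG hodd hNA in
theorem HH_bad {x : G} (hb : Bad P x) : HH x ≠ ⊥ := by
  exact HH_badP hG hNA P hb

include hG hodd hNA in
/-- (3.6) `C_G(x) = H(x) C_M(x)`, `M = N_G(P)` -/
theorem HH_dec {x : G} (hx : x ∈ P) (hxp : orderOf x = p) {g : G}
    (hg : g ∈ centralizer ({x} : Set G)) :
    ∃ h ∈ HH x, ∃ m ∈ centralizer ({x} : Set G) ⊓ normalizer (P : Set G), g = h * m := by
  exact HH_decP hG hNA P hx hxp hg

include hG hodd hNA in
/-- (3.5), (3.6) `H(x)` is a Hall subgroup -/
theorem HH_cop {x : G} (hx : x ∈ P) (hxp : orderOf x = p) :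
    (Nat.card (HH x)).Coprime
      (Nat.card (centralizer ({x} : Set G) ⊓ normalizer (P : Set G) : Subgroup G)) := by
  exact HH_copP hG hodd hNA P hx hxp

include hG hodd hNA in
/-- `C_G(x) ⊓ P` is a Sylow subgroup of `C_G(x)` when `x` is bad -/
theorem isSyl_cent {x : G} (hb : Bad P x) :
    IsSyl p (centralizer ({x} : Set G)) (centralizer ({x} : Set G) ⊓ P) := by
  exact isSyl_centP hG hNA P hb

include hG hodd hNA in
/-- (3.3) `C_{H(x)}(R) = 1`, `R = C_P(x)` -/
theorem HH_fix {x : G} (hx : x ∈ P) (hxp : orderOf x = p) {h : G} (hh : h ∈ HH x)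
    (hfix : ∀ r ∈ P, r * x = x * r → r * h = h * r) : h = 1 := by
  exact HH_fixP hG hodd hNA P hx hxp hh hfix

include hG hodd hNA in
/-- (3.10) an element of order `p` of `R = C_P(x)` outside `⟨x⟩` acts without fixed points -/
theorem HH_fixA {x : G} (hb : Bad P x) {a : G} (ha : a ∈ P) (hap : a ^ p = 1)
    (hax : a * x = x * a) (hna : a ∉ zpowers x) {h : G} (hh : h ∈ HH x)
    (hfix : h * a = a * h) : h = 1 := by
  exact HH_fixAP hG hodd hNA P hb ha hap hax hna hh hfix

include hG hodd hNA in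
/-- (3.4) the `p'`-elements of `C_M(x)` centralise `P` -/
theorem cent_pprime {x : G} (hb : Bad P x) {m : G} (hm : m ∈ normalizer (P : Set G))
    (hmx : m * x = x * m) (hmp : ¬ p ∣ orderOf m) : m ∈ centralizer (P : Set G) := by
  exact mem_centralizer_iff.mpr (cent_pprime' hG hodd hNA P hb hm hmx hmp)

include hG hodd hNA in
/-- (3.1) `P → Q` implies `C_Q(P) = 1` -/
theorem arrow_fix {q : ℕ} [Fact q.Prime] (hpq : p ≠ q) (Q : Sylow q G)
    (hPQ : (P : Subgroup G) ≤ normalizer (Q : Set G))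
    (hne : ¬ (P : Subgroup G) ≤ centralizer (Q : Set G)) {y : G} (hy : y ∈ Q)
    (hfix : ∀ a ∈ P, a * y = y * a) : y = 1 := by
  have harr : Pool.Agent.H91.FT.Arr P Q := by
    refine ⟨hPQ, ?_⟩
    by_contra hno
    push Not at hno
    apply hne
    intro a ha
    rw [mem_centralizer_iff]
    intro b hb
    exact (hno a ha b hb).symm
  exact arrow_fix' hG hodd hNA P hpq harr hy hfix

/-! ### type A -/

include hG hodd hNA in
/-- (3.7) type A -/
theorem norm_A (hab : ∀ a ∈ P, ∀ b ∈ P, a * b = b * a) {x : G} (hb : Bad P x) {m : G}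
    (hm : m ∈ normalizer (P : Set G)) (hmx : m ∈ normalizer (zpowers x : Set G)) :
    m ∈ centralizer (P : Set G) := by
  exact mem_centralizer_iff.mpr (norm_AP hG hNA P hab hb hm hmx)

include hG hodd hNA in
/-- type A: there is an element of order `p` outside `⟨x⟩` -/
theorem exists_A (hab : ∀ a ∈ P, ∀ b ∈ P, a * b = b * a) {x : G} (hb : Bad P x) :
    ∃ a ∈ P, a ^ p = 1 ∧ a ∉ zpowers x := by
  exact exists_AP hG hNA P hb

/-! ### type B -/

include hG hodd hNA in
/-- type B: `P` is contained in a unique maximal subgroup -/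
theorem unique_B (hnab : ¬ ∀ a ∈ P, ∀ b ∈ P, a * b = b * a) {H : Subgroup G} (hH : H < ⊤)
    (hPH : (P : Subgroup G) ≤ H) : H ≤ normalizer (P : Set G) := by
  exact unique_BP hG hNA P hnab hH hPH

include hG hodd hNA in
/-- type B: central elements of `P` are good -/
theorem good_center_B (hnab : ¬ ∀ a ∈ P, ∀ b ∈ P, a * b = b * a) {z : G} (hz : z ∈ P)
    (hz1 : z ≠ 1) (hzc : ∀ a ∈ P, a * z = z * a) : Good P z := by
  exact good_center_BP hG hNA P hnab hz hz1 hzc

include hG hodd hNA in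
/-- (3.3) type B: `C_{H(x)}(z) = 1` for central `z` -/
theorem HH_fixz (hnab : ¬ ∀ a ∈ P, ∀ b ∈ P, a * b = b * a) {x : G} (hb : Bad P x) {z : G}
    (hz : z ∈ P) (hz1 : z ≠ 1) (hzc : ∀ a ∈ P, a * z = z * a) {h : G} (hh : h ∈ HH x)
    (hfix : h * z = z * h) : h = 1 := by
  exact HH_fixzP hG hNA P hnab hb hz hz1 hzc hh hfix

include hG hodd hNA in
/-- (3.7) type B -/
theorem norm_B (hnab : ¬ ∀ a ∈ P, ∀ b ∈ P, a * b = b * a) {x : G} (hb : Bad P x) {z : G}
    (hz : z ∈ P) (hz1 : z ≠ 1) (hzp : z ^ p = 1) (hzc : ∀ a ∈ P, a * z = z * a) {m : G}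
    (hm : m ∈ normalizer (P : Set G)) (hmx : m ∈ normalizer (zpowers x : Set G))
    (hmp : ¬ p ∣ orderOf m) : m * z = z * m := by
  exact norm_B_aux hG hodd hNA P hnab hb hz hz1 hzp hzc hm hmx

include hG hodd hNA in
/-- (3.8) type B: the elements of `⟨x, z⟩` outside `⟨z⟩` are bad -/
theorem bad_B (hnab : ¬ ∀ a ∈ P, ∀ b ∈ P, a * b = b * a) {x : G} (hb : Bad P x) {z : G}
    (hz : z ∈ P) (hzp : z ^ p = 1) (hzc : ∀ a ∈ P, a * z = z * a) {i j : ℕ}
    (hi : ¬ p ∣ i) : Bad P (x ^ i * z ^ j) := by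
  exact bad_BP hG hodd hNA P hnab hb hz hzp hzc hi

end H57.FT
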