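import Pool.Agent.H57.FT.HHset
import Pool.Agent.H91.FT.S2
import Pool.Agent.H23.FT.Ptwo

/-!
Section 3: rank two, type B elementary facts, Sylow subgroups of the centraliser of a bad element.
-/

namespace H57.FT

open Subgroup H51.FT
open scoped Pointwise commutatorElement

variable {G : Type*} [Group G]

lemma mem_sup_zp {x a b : G} (h : x * a = a * x) (hb : b ∈ zpowers x ⊔ zpowers a) :
    ∃ i j : ℤ, b = x ^ i * a ^ j := by
  have h1 : zpowers a ≤ normalizer (zpowers x : Set G) := by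
    rw [zpowers_le, mem_normalizer_iff]
    intro y
    have h2 : ∀ i : ℤ, a * x ^ i * a⁻¹ = x ^ i := by
      intro i
      rw [← conj_zpow, ← h, mul_inv_cancel_right]
    constructor
    · rintro ⟨i, rfl⟩
      exact ⟨i, (h2 i).symm⟩
    · rintro ⟨i, hi⟩
      have hi' : x ^ i = a * y * a⁻¹ := hi
      refine ⟨i, ?_⟩
      change x ^ i = y
      have h3 : x ^ i = a⁻¹ * (a * x ^ i * a⁻¹) * a := by group
      rw [h2, hi'] at h3
      rw [hi', h3]
      group
  have h2 := Subgroup.coe_mul_of_right_le_normalizer_left (zpowers x) (zpowers a) h1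
  have h3 : b ∈ ((zpowers x ⊔ zpowers a : Subgroup G) : Set G) := hb
  rw [h2] at h3
  obtain ⟨u, ⟨i, rfl⟩, v, ⟨j, rfl⟩, rfl⟩ := h3
  exact ⟨i, j, rfl⟩

lemma zpow_eq_pow [Finite G] (x : G) (i : ℤ) : ∃ n : ℕ, x ^ i = x ^ n := by
  have h1 : x ^ i ∈ zpowers x := ⟨i, rfl⟩
  rw [← mem_powers_iff_mem_zpowers] at h1
  obtain ⟨n, hn⟩ := h1
  exact ⟨n, hn.symm⟩

lemma el_closure {p : ℕ} {S : Set G} (h1 : ∀ s ∈ S, s ^ p = 1)
    (h2 : ∀ s ∈ S, ∀ t ∈ S, s * t = t * s) : Pool.Agent.H91.FT.El p (closure S) := by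
  have hc : ∀ u ∈ closure S, ∀ v ∈ closure S, u * v = v * u := by
    have e1 : closure S ≤ centralizer S := by
      rw [closure_le]
      intro s hs
      change s ∈ centralizer S
      rw [mem_centralizer_iff]
      intro t ht
      exact h2 t ht s hs
    have e2 : closure S ≤ centralizer ((closure S : Subgroup G) : Set G) := by
      refine (closure_le_centralizer_centralizer S).trans ?_
      exact centralizer_le (SetLike.coe_subset_coe.mpr e1)
    intro u hu v hv
    exact (mem_centralizer_iff.mp (e2 hv) u hu)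
  refine ⟨?_, hc⟩
  intro u hu
  induction hu using closure_induction with
  | mem s hs => exact h1 s hs
  | one => exact one_pow _
  | mul a b ha hb iha ihb =>
    have : Commute a b := hc a ha b hb
    rw [this.mul_pow, iha, ihb, mul_one]
  | inv a _ iha => rw [inv_pow, iha, inv_one]

section
variable [Finite G] [IsSimpleGroup G] (hG : _root_.commutator G = ⊤) (hodd : Odd (Nat.card G))
  (hNA : ∀ H : Subgroup G, H < ⊤ → Group.IsNilpotent (_root_.commutator H))
  {p : ℕ} [hp : Fact p.Prime] (P : Sylow p G)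

omit [Finite G] [IsSimpleGroup G] in
include hodd in
lemma ne_two {x : G} (hx : orderOf x = p) : p ≠ 2 := by
  rintro rfl
  have h1 : 2 ∣ Nat.card G := hx ▸ orderOf_dvd_natCard x
  exact (Nat.not_even_iff_odd.mpr hodd) (even_iff_two_dvd.mpr h1)

omit [Finite G] [IsSimpleGroup G] in
lemma Bad.ne_one {P : Sylow p G} {x : G} (hb : Bad P x) : x ≠ 1 := by
  rintro rfl
  have := hb.2.1
  rw [orderOf_one] at this
  exact hp.out.one_lt.ne this

omit [Finite G] [IsSimpleGroup G] in
lemma Bad.pow {P : Sylow p G} {x : G} (hb : Bad P x) : x ^ p = 1 := by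
  rw [← hb.2.1]; exact pow_orderOf_eq_one x

omit [Finite G] [IsSimpleGroup G] in
lemma Bad.ne_bot {P : Sylow p G} {x : G} (hb : Bad P x) : (P : Subgroup G) ≠ ⊥ := by
  intro h
  have h1 := hb.1
  have h2 : x ∈ (P : Subgroup G) := h1
  rw [h, mem_bot] at h2
  exact hb.ne_one h2

include hG hodd hNA in
/-- (2.7) in the form in which it is used: rank at most two -/
theorem rank_two {x : G} (hb : Bad P x) {a b : G} (ha : a ∈ P) (hb' : b ∈ P) (hap : a ^ p = 1)
    (hbp : b ^ p = 1) (hax : a * x = x * a) (hbx : b * x = x * b) (hab : a * b = b * a)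
    (hna : a ∉ zpowers x) : ∃ i j : ℕ, b = x ^ i * a ^ j := by
  have hp2 := ne_two hodd hb.2.1
  set U := zpowers x ⊔ zpowers a with hU
  set B := closure ({x, a, b} : Set G) with hB
  have hUB : U ≤ B := by
    refine sup_le (zpowers_le.mpr (subset_closure (by simp))) (zpowers_le.mpr
      (subset_closure (by simp)))
  have hel : Pool.Agent.H91.FT.El p B := by
    apply el_closure
    · rintro s (rfl | rfl | rfl)
      · exact hb.pow
      · exact hap
      · exact hbp
    · rintro s (rfl | rfl | rfl) t (rfl | rfl | rfl)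
      · rfl
      · exact hax.symm
      · exact hbx.symm
      · exact hax
      · rfl
      · exact hab
      · exact hbx
      · exact hab.symm
      · rfl
  have hBP : B ≤ P := by
    rw [hB, closure_le]
    rintro s (rfl | rfl | rfl)
    · exact hb.1
    · exact ha
    · exact hb'
  have hxB : x ∈ B := subset_closure (by simp)
  have hc := Pool.Agent.H91.FT.card_le_of_bad hG hNA hp2 P hb.1 hb.pow hb.ne_one hb.2.2 hBP
    (fun e he => hel.2 e he x hxB) hel
  have hUp : IsPGroup p U := P.2.to_le (hUB.trans hBP)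
  have hc2 : p ^ 2 ≤ Nat.card U :=
    Pool.Agent.H91.FT.card_ge_sq hp.out hUp
      ((le_sup_right : zpowers a ≤ U) (mem_zpowers a))
      ((le_sup_left : zpowers x ≤ U) (mem_zpowers x)) hb.ne_one (mem_zpowers x) hna
  have hUB2 : U = B := Subgroup.eq_of_le_of_card_ge hUB (hc.trans hc2)
  have hbU : b ∈ U := by rw [hUB2]; exact subset_closure (by simp)
  obtain ⟨i, j, hij⟩ := mem_sup_zp hax.symm hbU
  obtain ⟨i', hi'⟩ := zpow_eq_pow x i
  obtain ⟨j', hj'⟩ := zpow_eq_pow a j
  exact ⟨i', j', by rw [hij, hi', hj']⟩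

/-! ### type B, elementary facts -/

include hG hNA in
/-- type B: `P` is contained in a unique maximal subgroup -/
theorem unique_BP (hnab : ¬ ∀ a ∈ P, ∀ b ∈ P, a * b = b * a) {H : Subgroup G} (hH : H < ⊤)
    (hPH : (P : Subgroup G) ≤ H) : H ≤ normalizer (P : Set G) := by
  push Not at hnab
  obtain ⟨a, ha, b, hb, hab⟩ := hnab
  exact Pool.Agent.H91.FT.two_three hG hNA P (Or.inl ⟨a, ha, b, hb, hab⟩) hH hPH

include hG hNA in
/-- type B: an element commuting with all of `P` has its centraliser in `N_G(P)` -/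
theorem cent_le_B (hnab : ¬ ∀ a ∈ P, ∀ b ∈ P, a * b = b * a) {v : G} (hv : v ≠ 1)
    (hc : ∀ a ∈ P, a * v = v * a) : centralizer ({v} : Set G) ≤ normalizer (P : Set G) :=
  unique_BP hG hNA P hnab (cent_lt hG hv) fun a ha => mem_cent.mpr (hc a ha)

include hG hNA in
/-- type B: central elements of `P` are good -/
theorem good_center_BP (hnab : ¬ ∀ a ∈ P, ∀ b ∈ P, a * b = b * a) {z : G} (hz : z ∈ P)
    (hz1 : z ≠ 1) (hzc : ∀ a ∈ P, a * z = z * a) : Good P z :=
  ⟨hz, hz1, cent_le_B hG hNA P hnab hz1 hzc⟩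

omit [IsSimpleGroup G] in
/-- a central element of order `p` -/
theorem exists_z (hP : (P : Subgroup G) ≠ ⊥) :
    ∃ z ∈ P, orderOf z = p ∧ ∀ a ∈ P, a * z = z * a := by
  have hne : Nontrivial (P : Subgroup G) := (Subgroup.nontrivial_iff_ne_bot _).mpr hP
  obtain ⟨z, -, hzo, hzc⟩ := H23.FT.exists_central (P := (P : Subgroup G)) P.2 ⊤
    (by
      intro h
      exact top_ne_bot h)
  refine ⟨z, z.2, ?_, ?_⟩
  · rw [Subgroup.orderOf_coe]; exact hzo
  · intro a ha
    have := mem_center_iff.mp hzc ⟨a, ha⟩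
    exact congrArg Subtype.val this

include hG hNA in
/-- `C_G(x) ⊓ P` is a Sylow subgroup of `C_G(x)` when `x` is bad -/
theorem isSyl_centP {x : G} (hb : Bad P x) :
    IsSyl p (centralizer ({x} : Set G)) (centralizer ({x} : Set G) ⊓ P) := by
  refine ⟨inf_le_left, P.2.to_le inf_le_right, ?_⟩
  intro T hT hTp hPT
  by_cases hab : ∀ a ∈ P, ∀ b ∈ P, a * b = b * a
  · have h1 : (P : Subgroup G) ≤ centralizer ({x} : Set G) := fun a ha =>
      mem_cent.mpr (hab a ha x hb.1)
    rw [inf_eq_right.mpr h1] at hPT ⊢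
    exact P.3 hTp hPT
  · obtain ⟨z, hz, hzo, hzc⟩ := exists_z P hb.ne_bot
    have hz1 : z ≠ 1 := by
      rintro rfl; rw [orderOf_one] at hzo; exact hp.out.one_lt.ne hzo
    have hgood := good_center_BP hG hNA P hab hz hz1 hzc
    have h2 : z ∈ T := hPT ⟨mem_cent.mpr (hzc x hb.1).symm, hz⟩
    have h3 := hgood.le (sylC hG hNA) hTp h2
    exact le_antisymm (le_inf hT h3) hPT

include hG hNA in
/-- elements centralising `C_P(x)` normalise `P` -/
theorem centR_le {x : G} (hb : Bad P x) {g : G}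
    (hg : ∀ r ∈ P, r * x = x * r → r * g = g * r) : g ∈ normalizer (P : Set G) := by
  by_cases hab : ∀ a ∈ P, ∀ b ∈ P, a * b = b * a
  · have h1 : g ∈ centralizer (P : Set G) := mem_centS.mpr fun a ha => hg a ha (hab a ha x hb.1)
    exact Subgroup.centralizer_le_normalizer _ h1
  · obtain ⟨z, hz, hzo, hzc⟩ := exists_z P hb.ne_bot
    have hz1 : z ≠ 1 := by
      rintro rfl; rw [orderOf_one] at hzo; exact hp.out.one_lt.ne hzo
    have hgood := good_center_BP hG hNA P hab hz hz1 hzc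
    exact hgood.2.2 (mem_cent.mpr (hg z hz (hzc x hb.1).symm).symm)

include hG hNA in
/-- elements normalising `C_P(x)` normalise `P` -/
theorem normR_le {x : G} (hb : Bad P x) {g : G}
    (hg : g ∈ normalizer ((centralizer ({x} : Set G) ⊓ P : Subgroup G) : Set G)) :
    g ∈ normalizer (P : Set G) := by
  by_cases hab : ∀ a ∈ P, ∀ b ∈ P, a * b = b * a
  · have h1 : (P : Subgroup G) ≤ centralizer ({x} : Set G) := fun a ha =>
      mem_cent.mpr (hab a ha x hb.1)
    rw [inf_eq_right.mpr h1] at hg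
    exact hg
  · obtain ⟨z, hz, hzo, hzc⟩ := exists_z P hb.ne_bot
    have hz1 : z ≠ 1 := by
      rintro rfl; rw [orderOf_one] at hzo; exact hp.out.one_lt.ne hzo
    have hgood := good_center_BP hG hNA P hab hz hz1 hzc
    exact hgood.normalizer_le (sylC hG hNA) (P.2.to_le inf_le_right)
      ⟨mem_cent.mpr (hzc x hb.1).symm, hz⟩ hg

include hG hNA in
/-- a prime of `HH x` in terms of `P` -/
theorem PiQ.exists {x : G} (hb : Bad P x) {K : Subgroup G} (hK : IsKp p (centralizer {x}) K)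
    {q : ℕ} (h : PiQ x q) :
    ∃ w ∈ K, (∃ k : ℕ, w ^ q ^ k = 1) ∧ ∃ r ∈ P, r * x = x * r ∧ r * w ≠ w * r := by
  obtain ⟨w, hw, hwq, hwc⟩ := h
  rw [hb.2.1] at hw hwc
  have hwK : w ∈ K := (hK.mem w).mpr hw
  rw [mem_cent_pgen] at hwc
  push Not at hwc
  obtain ⟨g, hgL, ⟨k, hk⟩, hgw⟩ := hwc
  have h1 : IsPGroup p (zpowers g) := Pool.Agent.H3.FT.zpowers_pgroup hk
  obtain ⟨S, hS, hgS⟩ := exists_isSyl (zpowers_le.mpr hgL) h1
  have hL := hNA _ (cent_lt hG hb.ne_one)
  obtain ⟨c, hc, hcS⟩ := hK.exists_conj hL (isSyl_centP hG hNA P hb) hS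
  have h2 : g ∈ S := hgS (mem_zpowers g)
  rw [← hcS] at h2
  obtain ⟨r, hr, hrg⟩ := h2
  have hrg' : c * r * c⁻¹ = g := hrg
  refine ⟨c⁻¹ * w * c, K.mul_mem (K.mul_mem (K.inv_mem hc) hwK) hc, ?_, r, hr.2,
    mem_cent.mp hr.1, ?_⟩
  · obtain ⟨j, hj⟩ := hwq
    refine ⟨j, ?_⟩
    have := pow_conj' (g := c⁻¹) hj
    rwa [inv_inv] at this
  · intro h3
    apply hgw
    rw [← hrg']
    calc c * r * c⁻¹ * w = c * (r * (c⁻¹ * w * c)) * c⁻¹ := by group
      _ = c * (c⁻¹ * w * c * r) * c⁻¹ := by rw [h3]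
      _ = w * (c * r * c⁻¹) := by group

omit [Finite G] [IsSimpleGroup G] hp in
/-- if `q` is not a prime of `HH x`, the `q`-elements of `K` centralise `C_P(x)` -/
theorem not_PiQ {x : G} (hx : orderOf x = p) {K : Subgroup G} (hK : IsKp p (centralizer {x}) K)
    {q : ℕ} (h : ¬ PiQ x q) {w : G} (hw : w ∈ K) (hwq : ∃ k : ℕ, w ^ q ^ k = 1) {g : G}
    (hg : g * x = x * g) (hgp : ∃ k : ℕ, g ^ p ^ k = 1) : g * w = w * g := by
  by_contra hne
  apply h
  refine ⟨w, ?_, hwq, ?_⟩
  · rw [hx]; exact (hK.mem w).mp hw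
  · rw [hx, mem_cent_pgen]
    intro h1
    exact hne (h1 g (mem_cent.mpr hg) hgp)

omit [Finite G] [IsSimpleGroup G] in
theorem PiQ.ne {x : G} (hx : orderOf x = p) {q : ℕ} (h : PiQ x q) : q ≠ p := by
  rintro rfl
  obtain ⟨w, hw, ⟨k, hk⟩, hwc⟩ := h
  rw [hx] at hw
  have h1 : orderOf w ∣ q ^ k := orderOf_dvd_of_pow_eq_one hk
  have h2 : orderOf w = 1 := Nat.Coprime.eq_one_of_dvd (hw.2.pow_right k) h1
  rw [orderOf_eq_one_iff] at h2
  subst h2
  exact hwc (one_mem _)

include hG hNA in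
/-- there is a prime in `HH x` when `x` is bad -/
theorem exists_pi {x : G} (hb : Bad P x) : ∃ q : ℕ, q.Prime ∧ PiQ x q := by
  by_contra hno
  push Not at hno
  have hL := hNA _ (cent_lt hG hb.ne_one)
  obtain ⟨K, hK⟩ := exists_isKp (p := p) hL
  have h1 : K ≤ normalizer (P : Set G) := by
    intro k hk
    apply centR_le hG hNA P hb
    intro r hr hrx
    have h2 : k ∈ centralizer ({r} : Set G) := by
      apply Pool.Agent.H3.FT.mem_of_parts
      intro q hq w hw hwq
      have hwK : w ∈ K := (zpowers_le.mpr hk) hw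
      rw [mem_cent]
      exact (not_PiQ hb.2.1 hK (hno q hq) hwK hwq hrx (exists_pow_of_mem P.2 hr)).symm
    exact (mem_cent.mp h2).symm
  apply hb.2.2
  intro g hg
  obtain ⟨k, hk, n, hn, rfl⟩ := hK.le_sup_normalizer hL (isSyl_centP hG hNA P hb) g hg
  exact mul_mem (h1 hk) (normR_le hG hNA P hb hn.2)

end

end H57.FT
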