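import Pool.Agent.H57.FT.BadA

/-!
Section 3: abelian `P` (`ab_bad`), type B fixed points (`fixB`), `omega_B`, `norm_B`, `bad_B`,
and (3.1) `arrow_fix`.
-/

namespace H57.FT

open Subgroup H51.FT
open scoped Pointwise commutatorElement

variable {G : Type*} [Group G]

section
variable [Finite G] [IsSimpleGroup G] (hG : _root_.commutator G = ⊤) (hodd : Odd (Nat.card G))
  (hNA : ∀ H : Subgroup G, H < ⊤ → Group.IsNilpotent (_root_.commutator H))
  {p : ℕ} [hp : Fact p.Prime] (P : Sylow p G)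

include hG hNA in
/-- `P` abelian: the derived subgroup of `N_G(P)` centralises `P` -/
lemma comm_norm_le (hab : ∀ a ∈ P, ∀ b ∈ P, a * b = b * a) (hP : (P : Subgroup G) ≠ ⊥) :
    ⁅normalizer (P : Set G), normalizer (P : Set G)⁆ ≤ centralizer (P : Set G) := by
  have hlt : normalizer (P : Set G) < ⊤ := lt_top_iff_ne_top.mpr (normalizer_ne_top hG P.2 hP)
  have hM := hNA _ hlt
  obtain ⟨K, hK⟩ := exists_isKp (p := p) hM
  have hS : IsSyl p (normalizer (P : Set G)) P :=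
    ⟨le_normalizer, P.2, fun T _ hTp hPT => P.3 hTp hPT⟩
  refine (hK.comm_le hM hS).trans (sup_le ?_ ?_)
  · intro a ha
    exact mem_centS.mpr fun b hb => hab b hb a ha
  · exact hK.le_centralizer le_normalizer P.2 le_rfl

include hG hNA in
/-- `P` abelian: conjugates by elements of `N_G(P)` of elements normalising `P` act in the same
way on `P` -/
lemma conj_comm (hab : ∀ a ∈ P, ∀ b ∈ P, a * b = b * a) (hP : (P : Subgroup G) ≠ ⊥) {g b a : G}
    (hg : g ∈ normalizer (P : Set G)) (hb : b ∈ normalizer (P : Set G)) (ha : a ∈ P) :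
    (g⁻¹ * b * g) * a * (g⁻¹ * b * g)⁻¹ = b * a * b⁻¹ := by
  have h1 : b⁻¹ * (g⁻¹ * b * g) ∈ centralizer (P : Set G) := by
    apply comm_norm_le hG hNA P hab hP
    have e : b⁻¹ * (g⁻¹ * b * g) = ⁅b⁻¹, g⁻¹⁆ := by rw [commutatorElement_def]; group
    rw [e]
    exact commutator_mem_commutator (inv_mem hb) (inv_mem hg)
  have h2 := mem_centS.mp h1 a ha
  calc (g⁻¹ * b * g) * a * (g⁻¹ * b * g)⁻¹
      = b * ((b⁻¹ * (g⁻¹ * b * g)) * a) * (b⁻¹ * (g⁻¹ * b * g))⁻¹ * b⁻¹ := by group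
    _ = b * (a * (b⁻¹ * (g⁻¹ * b * g))) * (b⁻¹ * (g⁻¹ * b * g))⁻¹ * b⁻¹ := by rw [h2]
    _ = b * a * b⁻¹ := by group

omit [Finite G] [IsSimpleGroup G] in
/-- an element of prime order `p` in a nontrivial `p`-group -/
lemma exists_order_p {D : Subgroup G} (hD : IsPGroup p D) (hD1 : D ≠ ⊥) :
    ∃ d ∈ D, orderOf d = p := by
  obtain ⟨d, hd, hd1⟩ := (Subgroup.bot_or_exists_ne_one D).resolve_left hD1
  obtain ⟨k, hk⟩ := exists_pow_of_mem hD hd
  have h0 : 0 < orderOf d := orderOf_pos_iff.mpr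
    (isOfFinOrder_iff_pow_eq_one.mpr ⟨p ^ k, pow_pos hp.out.pos _, hk⟩)
  have h1 : orderOf d ∣ p ^ k := orderOf_dvd_of_pow_eq_one hk
  have h2 : orderOf d ≠ 1 := fun h => hd1 (orderOf_eq_one_iff.mp h)
  have h3 : p ∣ orderOf d := by
    obtain ⟨j, -, hj⟩ := (Nat.dvd_prime_pow hp.out).mp h1
    rw [hj]
    refine dvd_pow_self p ?_
    rintro rfl
    exact h2 (by simpa using hj)
  exact ⟨d ^ (orderOf d / p), D.pow_mem hd _, orderOf_pow_orderOf_div h0.ne' h3⟩

include hG hodd hNA in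
/-- `P` abelian, `x ∈ P` bad: a `p'`-subgroup of `N_G(P)` centralising `x` centralises `P` -/
theorem ab_bad (hab : ∀ a ∈ P, ∀ b ∈ P, a * b = b * a) {x : G} (hb : Bad P x) {B : Subgroup G}
    (hBP : B ≤ normalizer (P : Set G)) (hB : (Nat.card B).Coprime (Nat.card P))
    (hBx : ∀ b ∈ B, b * x = x * b) : B ≤ centralizer (P : Set G) := by
  obtain ⟨hs1, hs2⟩ := Pool.Agent.H3.FT.ab_split hab hBP hB
  set D : Subgroup G := ⁅(P : Subgroup G), B⁆ with hD
  by_cases hD1 : D = ⊥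
  · intro b hbB
    rw [mem_centralizer_iff]
    intro a ha
    have h1 : ⁅a, b⁆ ∈ D := commutator_mem_commutator ha hbB
    rw [hD1, mem_bot, commutatorElement_eq_one_iff_mul_comm] at h1
    exact h1
  exfalso
  have hDP : D ≤ P := Pool.Agent.H3.FT.comm_le hBP
  obtain ⟨d, hdD, hdo⟩ := exists_order_p (P.2.to_le hDP) hD1
  have hd1 : d ≠ 1 := by rintro rfl; rw [orderOf_one] at hdo; exact hp.out.one_lt.ne hdo
  have hdx : d ∉ zpowers x := by
    rintro ⟨i, hi⟩
    apply hd1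
    apply hs2 d hdD
    intro b hbB
    rw [← hi]
    exact ((Commute.zpow_right (show Commute b x from hBx b hbB) i).eq)
  have key : ∀ c ∈ P, c ^ p = 1 → (∀ b ∈ B, b * c = c * b) → c ∈ zpowers x := by
    intro c hc hcp hcB
    obtain ⟨i, j, hij⟩ := rank_two hG hodd hNA P hb (hDP hdD) hc
      (by rw [← hdo]; exact pow_orderOf_eq_one d) hcp
      (hab d (hDP hdD) x hb.1) (hab c hc x hb.1) (hab d (hDP hdD) c hc) hdx
    have h1 : d ^ j = 1 := by
      apply hs2 _ (D.pow_mem hdD j)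
      intro b hbB
      have h2 : d ^ j = (x ^ i)⁻¹ * c := by rw [hij]; group
      rw [h2]
      have h3 : Commute b (x ^ i)⁻¹ := (Commute.pow_right (show Commute b x from hBx b hbB) i).inv_right
      exact (h3.mul_right (show Commute b c from hcB b hbB)).eq
    rw [hij, h1, mul_one]
    exact pow_mem (mem_zpowers x) i
  have hN : normalizer (P : Set G) ≤ normalizer (zpowers x : Set G) := by
    intro g hg
    apply Pool.Agent.H91.FT.mem_norm
    rintro _ ⟨i, rfl⟩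
    change g * x ^ i * g⁻¹ ∈ zpowers x
    rw [← conj_zpow]
    refine zpow_mem ?_ i
    apply key
    · exact (mem_normalizer_iff.mp hg x).mp hb.1
    · exact pow_conj' hb.pow
    · intro b hbB
      have h1 := conj_comm hG hNA P hab hb.ne_bot hg (hBP hbB) hb.1
      have h2 : b * x * b⁻¹ = x := by rw [hBx b hbB]; group
      rw [h2] at h1
      calc b * (g * x * g⁻¹) = g * ((g⁻¹ * b * g) * x * (g⁻¹ * b * g)⁻¹) * (g⁻¹ * b * g) * g⁻¹ := by
            group
        _ = g * x * (g⁻¹ * b * g) * g⁻¹ := by rw [h1]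
        _ = g * x * g⁻¹ * b := by group
  have h1 : normalizer (zpowers x : Set G) = normalizer (P : Set G) := by
    apply normalizer_eq_of_inv (sylC hG hNA) hG hNA P _ _ hb.ne_bot hN
    · rw [Ne, zpowers_eq_bot]; exact hb.ne_one
    · intro h
      have h2 : (P : Subgroup G) = ⊤ := top_le_iff.mp (h ▸ zpowers_le.mpr hb.1)
      have h3 : (P : Subgroup G).Normal := by rw [h2]; infer_instance
      exact normalizer_ne_top hG P.2 hb.ne_bot (normalizer_eq_top_iff.mpr h3)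
  apply hb.2.2
  rw [← h1]
  intro g hg
  apply Pool.Agent.H91.FT.mem_norm
  rintro _ ⟨i, rfl⟩
  refine ⟨i, ?_⟩
  change x ^ i = g * x ^ i * g⁻¹
  have h3 : Commute g (x ^ i) := Commute.zpow_right (show Commute g x from mem_cent.mp hg) i
  rw [h3.eq, mul_inv_cancel_right]

/-! ### type B -/

include hG hNA in
lemma bad_not_central (hnab : ¬ ∀ a ∈ P, ∀ b ∈ P, a * b = b * a) {x : G} (hb : Bad P x) :
    ¬ ∀ a ∈ P, a * x = x * a := fun h =>
  hb.2.2 (cent_le_B hG hNA P hnab hb.ne_one h)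

include hG hodd hNA in
/-- type B: every element of order `p` of `C_P(x)` is in `⟨x, z⟩` -/
theorem omega_B (hnab : ¬ ∀ a ∈ P, ∀ b ∈ P, a * b = b * a) {x : G} (hb : Bad P x) {z : G}
    (hz : z ∈ P) (hz1 : z ≠ 1) (hzp : z ^ p = 1) (hzc : ∀ a ∈ P, a * z = z * a) {a : G}
    (ha : a ∈ P) (hap : a ^ p = 1) (hax : a * x = x * a) : ∃ i j : ℕ, a = x ^ i * z ^ j := by
  apply rank_two hG hodd hNA P hb hz ha hzp hap (hzc x hb.1).symm hax (hzc a ha).symm
  rintro ⟨i, hi⟩
  -- `z` generates `⟨x⟩`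
  apply bad_not_central hG hNA P hnab hb
  have hzo : orderOf z = p := orderOf_eq_prime hzp hz1
  have h1 : zpowers z ≤ zpowers x := zpowers_le.mpr ⟨i, hi⟩
  have h2 : zpowers z = zpowers x := by
    apply Subgroup.eq_of_le_of_card_ge h1
    rw [Nat.card_zpowers, Nat.card_zpowers, hb.2.1, hzo]
  have h3 : x ∈ zpowers z := by rw [h2]; exact mem_zpowers x
  obtain ⟨j, hj⟩ := h3
  intro a ha
  rw [← hj]
  exact (Commute.zpow_right (show Commute a z from hzc a ha) j).eq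

omit [IsSimpleGroup G] in
/-- an element of `K ⊓ N_G(P)` centralises `P` (type B) -/
lemma KB_cent {x : G} (hb : Bad P x) {K : Subgroup G} (hK : IsKp p (centralizer {x}) K) {v : G}
    (hv : v ∈ K) (hvP : v ∈ normalizer (P : Set G)) : ∀ a ∈ P, a * v = v * a := by
  have hvx : x * v = v * x := (mem_cent.mp (hK.le hv)).symm
  refine Pool.Agent.H3.FT.axb hp.out P.2 (x := x) ⟨1, by rw [pow_one]; exact hb.pow⟩ ?_ hvx
    (le_normalizer hb.1) hvP ?_
  · intro hd
    have := ((hK.mem v).mp hv).2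
    exact hp.out.one_lt.ne' (Nat.eq_one_of_dvd_coprimes this hd dvd_rfl)
  · intro c hc hcx
    exact KS_cent P.2 hK hv hvP hc (mem_cent.mpr hcx)

include hG hNA in
/-- type B, (3.3): a `q`-element of `K` (`q` a prime of `HH x`) which centralises `z` is trivial -/
theorem fixB (hnab : ¬ ∀ a ∈ P, ∀ b ∈ P, a * b = b * a) {x : G} (hb : Bad P x) {K : Subgroup G}
    (hK : IsKp p (centralizer {x}) K) {q : ℕ} (hq : q.Prime) (hpi : PiQ x q) {z : G}
    (hz : z ∈ P) (hz1 : z ≠ 1) (hzc : ∀ a ∈ P, a * z = z * a) {v : G} (hv : v ∈ K)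
    (hvq : ∃ k : ℕ, v ^ q ^ k = 1) (hvz : v * z = z * v) : v = 1 := by
  by_contra hv1
  have hgood := good_center_BP hG hNA P hnab hz hz1 hzc
  have hvN : v ∈ normalizer (P : Set G) := hgood.2.2 (mem_cent.mpr hvz)
  have hvP := KB_cent P hb hK hv hvN
  obtain ⟨T, hTK, hTq, hT⟩ := exists_qpart hK.nil hq
  have : Fact q.Prime := ⟨hq⟩
  have hvT : v ∈ T := (hT v).mpr ⟨hv, hvq⟩
  have hT1 : T ≠ ⊥ := by
    rintro h
    rw [h, mem_bot] at hvT
    exact hv1 hvT
  have hne : Nontrivial T := (Subgroup.nontrivial_iff_ne_bot _).mpr hT1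
  obtain ⟨w, -, hwo, hwc⟩ := H23.FT.exists_central (P := T) hTq ⊤ (fun h => top_ne_bot h)
  have hw1 : (w : G) ≠ 1 := by
    intro h
    have h2 : w = 1 := Subtype.ext h
    rw [h2, orderOf_one] at hwo
    exact hq.one_lt.ne hwo
  have hwT : ∀ t ∈ T, t * (w : G) = w * t := fun t ht =>
    congrArg Subtype.val (mem_center_iff.mp hwc ⟨t, ht⟩)
  have hwN : (w : G) ∈ normalizer (P : Set G) :=
    cent_le_B hG hNA P hnab hv1 hvP (mem_cent.mpr (hwT v hvT).symm)
  have hwP := KB_cent P hb hK (hTK w.2) hwN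
  have hTN : T ≤ normalizer (P : Set G) := fun t ht =>
    cent_le_B hG hNA P hnab hw1 hwP (mem_cent.mpr (hwT t ht))
  obtain ⟨u, huK, huq, r, hr, hrx, hru⟩ := PiQ.exists hG hNA P hb hK hpi
  apply hru
  exact KS_cent P.2 hK huK (hTN ((hT u).mpr ⟨huK, huq⟩)) hr (mem_cent.mpr hrx)

omit [IsSimpleGroup G] hp in
/-- elements normalising `⟨x⟩` normalise the set of `p'`-elements of the derived subgroup of
`C_G(x)` -/
lemma KS_norm {x : G} {K : Subgroup G} (hK : IsKp p (centralizer {x}) K) {g : G}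
    (hg : g ∈ normalizer (zpowers x : Set G)) {w : G} (hw : w ∈ K) : g * w * g⁻¹ ∈ K := by
  have h1 := KS_conj g ((hK.mem w).mp hw)
  refine (hK.mem _).mpr ?_
  have h2 : centralizer ({g * x * g⁻¹} : Set G) = centralizer ({x} : Set G) := by
    have h3 : zpowers (g * x * g⁻¹) = zpowers x := by
      have h4 : zpowers (g * x * g⁻¹) ≤ zpowers x :=
        zpowers_le.mpr ((mem_normalizer_iff.mp hg x).mp (mem_zpowers x))
      apply Subgroup.eq_of_le_of_card_ge h4
      rw [Nat.card_zpowers, Nat.card_zpowers, orderOf_conj']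
    rw [← centralizer_closure ({g * x * g⁻¹} : Set G), ← centralizer_closure ({x} : Set G),
      ← zpowers_eq_closure, ← zpowers_eq_closure, h3]
  rw [h2] at h1
  exact h1

include hG hodd hNA in
/-- type B: conjugates of `z` under `N_G(P)` are powers of `z` -/
lemma conj_z (hnab : ¬ ∀ a ∈ P, ∀ b ∈ P, a * b = b * a) {x : G} (hb : Bad P x) {z : G}
    (hz : z ∈ P) (hz1 : z ≠ 1) (hzp : z ^ p = 1) (hzc : ∀ a ∈ P, a * z = z * a) {m : G}
    (hm : m ∈ normalizer (P : Set G)) : ∃ j : ℕ, m * z * m⁻¹ = z ^ j := by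
  have h1 : m * z * m⁻¹ ∈ P := (mem_normalizer_iff.mp hm z).mp hz
  have h2 : ∀ a ∈ P, a * (m * z * m⁻¹) = (m * z * m⁻¹) * a := by
    intro a ha
    have h3 : m⁻¹ * a * m ∈ P := (mem_normalizer_iff''.mp hm a).mp ha
    have h4 := hzc _ h3
    calc a * (m * z * m⁻¹) = m * (m⁻¹ * a * m * z) * m⁻¹ := by group
      _ = m * (z * (m⁻¹ * a * m)) * m⁻¹ := by rw [h4]
      _ = m * z * m⁻¹ * a := by group
  obtain ⟨i, j, hij⟩ := omega_B hG hodd hNA P hnab hb hz hz1 hzp hzc h1 (pow_conj' hzp)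
    (h2 x hb.1).symm
  by_cases hi : p ∣ i
  · obtain ⟨k, rfl⟩ := hi
    rw [pow_mul, hb.pow, one_pow, one_mul] at hij
    exact ⟨j, hij⟩
  · exfalso
    apply bad_not_central hG hNA P hnab hb
    have hxi : ∀ a ∈ P, Commute a (x ^ i) := by
      intro a ha
      have h5 : x ^ i = m * z * m⁻¹ * (z ^ j)⁻¹ := by rw [hij]; group
      rw [h5]
      exact (show Commute a (m * z * m⁻¹) from h2 a ha).mul_right
        ((show Commute a z from hzc a ha).pow_right j).inv_right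
    have hcop : (orderOf x).Coprime i := by
      rw [hb.2.1]; exact (hp.out.coprime_iff_not_dvd).mpr hi
    obtain ⟨k, hk⟩ := exists_pow_eq_self_of_coprime hcop.symm
    intro a ha
    rw [← hk]
    exact ((hxi a ha).pow_right k).eq

include hG hodd hNA in
/-- the main step of (3.7) type B: `J` a proper subgroup containing `z`, `m`, and normalising
the `q`-part of `K` -/
lemma norm_B_aux (hnab : ¬ ∀ a ∈ P, ∀ b ∈ P, a * b = b * a) {x : G} (hb : Bad P x) {z : G}
    (hz : z ∈ P) (hz1 : z ≠ 1) (hzp : z ^ p = 1) (hzc : ∀ a ∈ P, a * z = z * a) {m : G}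
    (hm : m ∈ normalizer (P : Set G)) (hmx : m ∈ normalizer (zpowers x : Set G)) :
    m * z = z * m := by
  obtain ⟨j, hj⟩ := conj_z hG hodd hNA P hnab hb hz hz1 hzp hzc hm
  set J := normalizer (zpowers x : Set G) with hJ
  have hxp : IsPGroup p (zpowers x) :=
    Pool.Agent.H3.FT.zpowers_pgroup (k := 1) (by rw [pow_one]; exact hb.pow)
  have hJlt : J < ⊤ := lt_top_iff_ne_top.mpr
    (normalizer_ne_top hG hxp (by rw [Ne, zpowers_eq_bot]; exact hb.ne_one))
  have hcJ : ∀ g : G, g * x = x * g → g ∈ J := by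
    intro g hg
    apply Pool.Agent.H91.FT.mem_norm
    rintro _ ⟨i, rfl⟩
    refine ⟨i, ?_⟩
    change x ^ i = g * x ^ i * g⁻¹
    have h3 : Commute g (x ^ i) := Commute.zpow_right (show Commute g x from hg) i
    rw [h3.eq, mul_inv_cancel_right]
  have hzJ : z ∈ J := hcJ z (hzc x hb.1).symm
  by_contra hne
  -- `z` lies in the derived subgroup of `J`
  set c := m * z * m⁻¹ * z⁻¹ with hc
  have hcJ' : c ∈ (⁅J, J⁆ : Subgroup G) := by
    have e : c = ⁅m, z⁆ := by rw [commutatorElement_def]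
    rw [e]; exact commutator_mem_commutator hmx hzJ
  have hc1 : c ≠ 1 := by
    intro h
    apply hne
    rw [hc, mul_inv_eq_one, mul_inv_eq_iff_eq_mul] at h
    exact h
  have hcz : c ∈ zpowers z := by
    rw [hc, hj]
    exact mul_mem (pow_mem (mem_zpowers z) j) (inv_mem (mem_zpowers z))
  have hzo : orderOf z = p := orderOf_eq_prime hzp hz1
  have hzc' : z ∈ zpowers c := by
    have h1 : zpowers c ≤ zpowers z := zpowers_le.mpr hcz
    have h2 : zpowers c = zpowers z := by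
      apply Subgroup.eq_of_le_of_card_ge h1
      have h3 : orderOf c ∣ p := by
        have := card_dvd_of_le h1
        rwa [Nat.card_zpowers, Nat.card_zpowers, hzo] at this
      rw [Nat.card_zpowers, Nat.card_zpowers, hzo]
      rcases (Nat.dvd_prime hp.out).mp h3 with h4 | h4
      · exact absurd (orderOf_eq_one_iff.mp h4) hc1
      · exact h4.ge
    rw [h2]; exact mem_zpowers z
  have hzJ' : z ∈ (⁅J, J⁆ : Subgroup G) := (zpowers_le.mpr hcJ') hzc'
  obtain ⟨T, hTJ, hTp, hT⟩ := exists_qpart (nil_comm (hNA J hJlt)) hp.out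
  have hzT : z ∈ T := (hT z).mpr ⟨hzJ', 1, by rw [pow_one]; exact hzp⟩
  obtain ⟨K, hK⟩ := exists_isKp (p := p) (hNA _ (cent_lt hG hb.ne_one))
  obtain ⟨q, hq, hpi⟩ := exists_pi hG hNA P hb
  have hqp := PiQ.ne hb.2.1 hpi
  obtain ⟨S, hSK, hSq, hS⟩ := exists_qpart hK.nil hq
  have hSJ : S ≤ J := fun s hs => hcJ s (mem_cent.mp (hK.le (hSK hs)))
  have hJS : ∀ g ∈ J, ∀ s ∈ S, g * s * g⁻¹ ∈ S := by
    intro g hg s hs
    obtain ⟨h1, k, hk⟩ := (hS s).mp hs
    exact (hS _).mpr ⟨KS_norm hK hg h1, k, pow_conj' hk⟩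
  have hJT : ∀ g ∈ J, ∀ s ∈ T, g * s * g⁻¹ ∈ T := by
    intro g hg s hs
    obtain ⟨h1, k, hk⟩ := (hT s).mp hs
    exact (hT _).mpr ⟨IsKp.conj_mem_comm hg h1, k, pow_conj' hk⟩
  have hTJ2 : T ≤ J := hTJ.trans (comm_le_self J)
  have hcomm : ∀ s ∈ S, z * s = s * z := by
    intro s hs
    exact Pool.Agent.H91.FT.comm_of_inf (A := T) (B := S)
      (fun a ha b hb' => hJT b (hSJ hb') a ha) (fun a ha b hb' => hJS a (hTJ2 ha) b hb')
      (Pool.Agent.H91.FT.inf_eq_bot hp.out hq hqp.symm hTp hSq) hzT hs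
  obtain ⟨w, hwK, hwq, r, hr, hrx, hrw⟩ := PiQ.exists hG hNA P hb hK hpi
  have hw1 : w = 1 := fixB hG hNA P hnab hb hK hq hpi hz hz1 hzc hwK hwq
    (hcomm w ((hS w).mpr ⟨hwK, hwq⟩)).symm
  rw [hw1] at hrw
  exact hrw (by rw [mul_one, one_mul])

end

end H57.FT
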