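import Pool.Agent.H57.FT.BadB

/-!
Section 3: (3.1) `arrow_fix`, (3.3) `fixR`, (3.5) `fixD`, (3.4) `cent_pprime`.
-/

namespace H57.FT

open Subgroup H51.FT
open scoped Pointwise commutatorElement

variable {G : Type*} [Group G]

lemma isSyl_conj_norm {q : ℕ} {H S : Subgroup G} (h : IsSyl q H S) {g : G}
    (hg : g ∈ normalizer (H : Set G)) : IsSyl q H (MulAut.conj g • S) := by
  have key : ∀ {g : G}, g ∈ normalizer (H : Set G) → ∀ {T : Subgroup G}, T ≤ H →
      MulAut.conj g • T ≤ H := by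
    rintro g hg T hT _ ⟨t, ht, rfl⟩
    exact (mem_normalizer_iff.mp hg t).mp (hT ht)
  refine ⟨key hg h.1, h.2.1.map _, ?_⟩
  intro T hT hTp hST
  have h1 : MulAut.conj g⁻¹ • T = S := by
    apply h.2.2 _ (key (inv_mem hg) hT) (hTp.map _)
    rw [map_inv, Subgroup.subset_pointwise_smul_iff, inv_inv]; exact hST
  rw [← h1, map_inv, smul_inv_smul]

lemma mem_norm_of_conj {S : Subgroup G} {g h : G}
    (e : MulAut.conj h • S = MulAut.conj g • S) : h⁻¹ * g ∈ normalizer (S : Set G) := by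
  have h2 : MulAut.conj (h⁻¹ * g) • S = S := by
    rw [map_mul, mul_smul, ← e, map_inv, inv_smul_smul]
  rw [mem_normalizer_iff]
  intro x
  constructor
  · intro hx
    have h3 := Subgroup.smul_mem_pointwise_smul x (MulAut.conj (h⁻¹ * g)) S hx
    rw [h2] at h3
    exact h3
  · intro hx
    have h3 : MulAut.conj (h⁻¹ * g) • x ∈ MulAut.conj (h⁻¹ * g) • S := by
      rw [h2]; exact hx
    exact Subgroup.smul_mem_pointwise_smul_iff.mp h3

lemma cent_norm_le {P : Subgroup G} :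
    normalizer (P : Set G) ≤ normalizer ((centralizer (P : Set G) : Subgroup G) : Set G) := by
  intro g hg
  have key : ∀ g ∈ normalizer (P : Set G), ∀ c ∈ centralizer (P : Set G),
      g * c * g⁻¹ ∈ centralizer (P : Set G) := by
    intro g hg c hc
    rw [mem_centralizer_iff]
    intro a ha
    have h1 : g⁻¹ * a * g ∈ P := (mem_normalizer_iff''.mp hg a).mp ha
    have h2 := mem_centralizer_iff.mp hc _ h1
    calc a * (g * c * g⁻¹) = g * (g⁻¹ * a * g * c) * g⁻¹ := by group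
      _ = g * (c * (g⁻¹ * a * g)) * g⁻¹ := by rw [h2]
      _ = g * c * g⁻¹ * a := by group
  rw [mem_normalizer_iff]
  intro c
  constructor
  · exact key g hg c
  · intro hc
    have h1 := key g⁻¹ (inv_mem hg) _ hc
    have e : g⁻¹ * (g * c * g⁻¹) * g⁻¹⁻¹ = c := by group
    rwa [e] at h1

lemma mem_norm_zp {g x : G} (h : g * x = x * g) : g ∈ normalizer (zpowers x : Set G) := by
  have key : ∀ i : ℤ, g * x ^ i * g⁻¹ = x ^ i := by
    intro i
    rw [(Commute.zpow_right (show Commute g x from h) i).eq, mul_inv_cancel_right]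
  rw [mem_normalizer_iff]
  intro y
  constructor
  · rintro ⟨i, rfl⟩
    exact ⟨i, (key i).symm⟩
  · rintro ⟨i, hi⟩
    have hi' : x ^ i = g * y * g⁻¹ := hi
    refine ⟨i, ?_⟩
    change x ^ i = y
    have h3 : y = g⁻¹ * (g * y * g⁻¹) * g := by group
    rw [h3, ← hi']
    have h4 := key i
    calc x ^ i = g⁻¹ * (g * x ^ i * g⁻¹) * g := by group
      _ = g⁻¹ * x ^ i * g := by rw [h4]

section
variable [Finite G] [IsSimpleGroup G] (hG : _root_.commutator G = ⊤) (hodd : Odd (Nat.card G))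
  (hNA : ∀ H : Subgroup G, H < ⊤ → Group.IsNilpotent (_root_.commutator H))
  {p : ℕ} [hp : Fact p.Prime] (P : Sylow p G)

omit [IsSimpleGroup G] in
lemma cop_card {q : ℕ} [hq : Fact q.Prime] (hpq : p ≠ q) {A B : Subgroup G} (hA : IsPGroup p A)
    (hB : IsPGroup q B) : (Nat.card A).Coprime (Nat.card B) := by
  obtain ⟨n, hn⟩ := IsPGroup.iff_card.mp hA
  obtain ⟨m, hm⟩ := IsPGroup.iff_card.mp hB
  rw [hn, hm]
  exact Nat.Coprime.pow _ _ ((Nat.coprime_primes hp.out hq.out).mpr hpq)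

include hG hNA in
/-- (3.1) (a) -/
lemma arrow_not_good {q : ℕ} [hq : Fact q.Prime] (hpq : p ≠ q) {Q : Sylow q G}
    (harr : Pool.Agent.H91.FT.Arr P Q) {y : G} (hfix : ∀ a ∈ P, a * y = y * a) :
    ¬ Good Q y := by
  intro hgood
  have hyC : y ∈ centralizer (P : Set G) := mem_centS.mpr hfix
  obtain ⟨k, hk⟩ := exists_pow_of_mem Q.2 hgood.1
  have hyq : IsPGroup q (zpowers y) := Pool.Agent.H3.FT.zpowers_pgroup hk
  obtain ⟨S, hS, hyS⟩ := exists_isSyl (zpowers_le.mpr hyC) hyq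
  have hNC : normalizer (P : Set G) ≤ centralizer (P : Set G) := by
    intro g hg
    have hSg := isSyl_conj_norm hS (cent_norm_le (P := (P : Subgroup G)) hg)
    obtain ⟨c, hc, hcS⟩ := hS.exists_conj hSg
    have h1 := mem_norm_of_conj hcS
    have h2 : c⁻¹ * g ∈ normalizer (Q : Set G) :=
      hgood.normalizer_le (sylC hG hNA) hS.2.1 (hyS (mem_zpowers y)) h1
    have h3 : c⁻¹ * g ∈ normalizer (P : Set G) :=
      mul_mem (inv_mem (Subgroup.centralizer_le_normalizer _ hc)) hg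
    have h4 : c⁻¹ * g ∈ centralizer (P : Set G) := mem_centS.mpr fun a ha =>
      (harr.inf_le hG hNA hpq h3 h2 ha).symm
    have h5 : g = c * (c⁻¹ * g) := by group
    rw [h5]
    exact mul_mem hc h4
  have h1 := le_comm_normalizer (sylC hG hNA) P hG
  have h2 : ⁅(P : Subgroup G), normalizer (P : Set G)⁆ = ⊥ := by
    rw [commutator_comm, commutator_eq_bot_iff_le_centralizer]
    exact hNC
  rw [h2, le_bot_iff] at h1
  obtain ⟨-, a, ha, b, -, hab⟩ := harr
  have ha' : a ∈ (P : Subgroup G) := ha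
  rw [h1, mem_bot] at ha'
  rw [ha'] at hab
  exact hab (by rw [one_mul, mul_one])

include hG hodd hNA in
/-- (3.1) `P → Q` implies `C_Q(P) = 1` -/
theorem arrow_fix' {q : ℕ} [hq : Fact q.Prime] (hpq : p ≠ q) {Q : Sylow q G}
    (harr : Pool.Agent.H91.FT.Arr P Q) {y : G} (hy : y ∈ Q)
    (hfix : ∀ a ∈ P, a * y = y * a) : y = 1 := by
  by_contra hy1
  have hzy : IsPGroup q (zpowers y) := Q.2.to_le (zpowers_le.mpr hy)
  obtain ⟨w, hw, hwo⟩ := exists_order_p hzy (by rw [Ne, zpowers_eq_bot]; exact hy1)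
  have hwQ : w ∈ Q := (zpowers_le.mpr hy) hw
  have hwfix : ∀ a ∈ P, a * w = w * a := by
    intro a ha
    obtain ⟨i, rfl⟩ := hw
    exact (Commute.zpow_right (show Commute a y from hfix a ha) i).eq
  have hw1 : w ≠ 1 := by rintro rfl; rw [orderOf_one] at hwo; exact hq.out.one_lt.ne hwo
  have hbad : Bad Q w := by
    refine ⟨hwQ, hwo, fun h => ?_⟩
    exact arrow_not_good hG hNA P hpq harr hwfix ⟨hwQ, hw1, h⟩
  by_cases hab : ∀ a ∈ Q, ∀ b ∈ Q, a * b = b * a
  · have h1 := ab_bad hG hodd hNA Q hab hbad (B := (P : Subgroup G)) harr.1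
      (cop_card hpq P.2 Q.2) hwfix
    obtain ⟨-, a, ha, b, hb, hne⟩ := harr
    exact hne (mem_centS.mp (h1 ha) b hb).symm
  · obtain ⟨z, hz, hzo, hzc⟩ := exists_z Q hbad.ne_bot
    have hz1 : z ≠ 1 := by
      rintro rfl; rw [orderOf_one] at hzo; exact hq.out.one_lt.ne hzo
    apply arrow_not_good hG hNA P hpq harr (y := z) _ (good_center_BP hG hNA Q hab hz hz1 hzc)
    intro a ha
    exact norm_B_aux hG hodd hNA Q hab hbad hz hz1 (by rw [← hzo]; exact pow_orderOf_eq_one z) hzc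
      (harr.1 ha) (mem_norm_zp (hwfix a ha))

/-! ### fixed points -/

omit [IsSimpleGroup G] in
/-- the `q`-part of `K`, normal in `C_G(x)` -/
lemma exists_S {x : G} {K : Subgroup G} (hK : IsKp p (centralizer {x}) K) {q : ℕ} (hq : q.Prime) :
    ∃ S : Subgroup G, S ≤ K ∧ IsPGroup q S ∧ (∀ s, s ∈ S ↔ s ∈ K ∧ ∃ k : ℕ, s ^ q ^ k = 1) ∧
      ∀ g, g * x = x * g → ∀ s ∈ S, g * s * g⁻¹ ∈ S := by
  obtain ⟨S, hSK, hSq, hS⟩ := exists_qpart hK.nil hq
  refine ⟨S, hSK, hSq, hS, ?_⟩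
  intro g hg s hs
  obtain ⟨h1, k, hk⟩ := (hS s).mp hs
  exact (hS _).mpr ⟨(mem_normalizer_iff.mp (hK.le_normalizer (mem_cent.mpr hg)) s).mp h1, k,
    pow_conj' hk⟩

include hG hodd hNA in
/-- type A, (3.3) and (3.5) -/
lemma fixA (hab : ∀ a ∈ P, ∀ b ∈ P, a * b = b * a) {x : G} (hb : Bad P x) {K : Subgroup G}
    (hK : IsKp p (centralizer {x}) K) {q : ℕ} (hq : q.Prime) (hpi : PiQ x q) {d : G}
    (hd : ∀ a ∈ P, a * d = d * a) (hdq : ∃ k : ℕ, d ^ q ^ k = 1) : d = 1 := by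
  have : Fact q.Prime := ⟨hq⟩
  have hpq : p ≠ q := (PiQ.ne hb.2.1 hpi).symm
  obtain ⟨S, hSK, hSq, hS, hSn⟩ := exists_S hK hq
  obtain ⟨k, hk⟩ := hdq
  have hdp : IsPGroup q (zpowers d) := Pool.Agent.H3.FT.zpowers_pgroup hk
  have hdx : d * x = x * d := (hd x hb.1).symm
  have hdS : zpowers d ≤ normalizer (S : Set G) :=
    zpowers_le.mpr (Pool.Agent.H91.FT.mem_norm (hSn d hdx))
  have hX : IsPGroup q (S ⊔ zpowers d : Subgroup G) := IsPGroup.to_sup_of_normal_left' hSq hdp hdS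
  have hinv : Pool.Agent.H91.FT.Inv (P : Subgroup G) q (S ⊔ zpowers d) := by
    refine ⟨hX, ?_⟩
    intro a ha y hy
    refine Pool.Agent.H91.FT.norm_sup_mem (hSn a (hab a ha x hb.1)) ?_ hy
    rintro _ ⟨i, rfl⟩
    refine ⟨i, ?_⟩
    change d ^ i = a * d ^ i * a⁻¹
    rw [(Commute.zpow_right (show Commute a d from hd a ha) i).eq, mul_inv_cancel_right]
  obtain ⟨w, hwK, hwq, r, hr, hrx, hrw⟩ := PiQ.exists hG hNA P hb hK hpi
  obtain ⟨Q, hQ, harr⟩ := Pool.Agent.H91.FT.exists_arr hG hNA hpq P hinv hr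
    ((le_sup_left : S ≤ S ⊔ zpowers d) ((hS w).mpr ⟨hwK, hwq⟩)) hrw
  exact arrow_fix' hG hodd hNA P hpq harr
    (hQ ((le_sup_right : zpowers d ≤ S ⊔ zpowers d) (mem_zpowers d))) hd

include hG hodd hNA in
/-- (3.3) `C_{K_q}(R) = 1` -/
lemma fixR {x : G} (hb : Bad P x) {K : Subgroup G}
    (hK : IsKp p (centralizer {x}) K) {q : ℕ} (hq : q.Prime) (hpi : PiQ x q) {v : G}
    (hv : v ∈ K) (hvq : ∃ k : ℕ, v ^ q ^ k = 1) (hfix : ∀ r ∈ P, r * x = x * r → r * v = v * r) :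
    v = 1 := by
  by_cases hab : ∀ a ∈ P, ∀ b ∈ P, a * b = b * a
  · exact fixA hG hodd hNA P hab hb hK hq hpi (fun a ha => hfix a ha (hab a ha x hb.1)) hvq
  · obtain ⟨z, hz, hzo, hzc⟩ := exists_z P hb.ne_bot
    have hz1 : z ≠ 1 := by
      rintro rfl; rw [orderOf_one] at hzo; exact hp.out.one_lt.ne hzo
    exact fixB hG hNA P hab hb hK hq hpi hz hz1 hzc hv hvq
      (hfix z hz (hzc x hb.1).symm).symm

include hG hodd hNA in
/-- (3.5) -/
lemma fixD {x : G} (hb : Bad P x) {q : ℕ} (hq : q.Prime) (hpi : PiQ x q) {d : G}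
    (hd : ∀ a ∈ P, a * d = d * a) (hdq : ∃ k : ℕ, d ^ q ^ k = 1) : d = 1 := by
  have : Fact q.Prime := ⟨hq⟩
  obtain ⟨K, hK⟩ := exists_isKp (p := p) (hNA _ (cent_lt hG hb.ne_one))
  by_cases hab : ∀ a ∈ P, ∀ b ∈ P, a * b = b * a
  · exact fixA hG hodd hNA P hab hb hK hq hpi hd hdq
  by_contra hd1
  obtain ⟨z, hz, hzo, hzc⟩ := exists_z P hb.ne_bot
  have hz1 : z ≠ 1 := by
    rintro rfl; rw [orderOf_one] at hzo; exact hp.out.one_lt.ne hzo
  obtain ⟨S, hSK, hSq, hS, hSn⟩ := exists_S hK hq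
  obtain ⟨w, hwK, hwq, r, hr, hrx, hrw⟩ := PiQ.exists hG hNA P hb hK hpi
  have hwS : w ∈ S := (hS w).mpr ⟨hwK, hwq⟩
  have hw1 : w ≠ 1 := by
    rintro rfl; exact hrw (by rw [mul_one, one_mul])
  obtain ⟨k, hk⟩ := hdq
  have hdp : IsPGroup q (zpowers d) := Pool.Agent.H3.FT.zpowers_pgroup hk
  have hdx : d * x = x * d := (hd x hb.1).symm
  have hdS : zpowers d ≤ normalizer (S : Set G) :=
    zpowers_le.mpr (Pool.Agent.H91.FT.mem_norm (hSn d hdx))
  set X := S ⊔ zpowers d with hXdef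
  have hX : IsPGroup q X := IsPGroup.to_sup_of_normal_left' hSq hdp hdS
  have hXS : X ≤ normalizer (S : Set G) := sup_le le_normalizer hdS
  have hn : (S.subgroupOf X).Normal := normal_subgroupOf_of_le_normalizer hXS
  obtain ⟨v, hvS, hvo, hvc⟩ := H23.FT.exists_central (P := X) hX (S.subgroupOf X) (by
    intro h
    have h1 : (⟨w, (le_sup_left : S ≤ X) hwS⟩ : X) ∈ S.subgroupOf X := by
      rw [mem_subgroupOf]; exact hwS
    rw [h, mem_bot] at h1
    exact hw1 (congrArg Subtype.val h1))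
  have hvS' : (v : G) ∈ S := mem_subgroupOf.mp hvS
  have hv1 : (v : G) ≠ 1 := by
    intro h
    have h2 : v = 1 := Subtype.ext h
    rw [h2, orderOf_one] at hvo
    exact hq.one_lt.ne hvo
  have hvd : d * (v : G) = v * d := congrArg Subtype.val
    (mem_center_iff.mp hvc ⟨d, (le_sup_right : zpowers d ≤ X) (mem_zpowers d)⟩)
  have hvN : (v : G) ∈ normalizer (P : Set G) :=
    cent_le_B hG hNA P hab hd1 hd (mem_cent.mpr hvd.symm)
  obtain ⟨hvK, hvq⟩ := (hS v).mp hvS'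
  apply hv1
  refine fixR hG hodd hNA P hb hK hq hpi hvK hvq ?_
  intro r hr hrx
  exact KS_cent P.2 hK hvK hvN hr (mem_cent.mpr hrx)

include hG hodd hNA in
/-- (3.4) the `p'`-elements of `C_M(x)` centralise `P` -/
theorem cent_pprime' {x : G} (hb : Bad P x) {m : G} (hm : m ∈ normalizer (P : Set G))
    (hmx : m * x = x * m) (hmp : ¬ p ∣ orderOf m) : ∀ a ∈ P, a * m = m * a := by
  have hcm : (Nat.card (zpowers m)).Coprime (Nat.card (P : Subgroup G)) := by
    obtain ⟨n, hn⟩ := IsPGroup.iff_card.mp P.2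
    rw [Nat.card_zpowers, hn]
    exact (((hp.out.coprime_iff_not_dvd).mpr hmp).symm).pow_right n
  have hzm : ∀ b ∈ zpowers m, b * x = x * b := by
    rintro _ ⟨i, rfl⟩
    exact ((show Commute x m from hmx.symm).zpow_right i).eq.symm
  by_cases hab : ∀ a ∈ P, ∀ b ∈ P, a * b = b * a
  · have h1 := ab_bad hG hodd hNA P hab hb (B := zpowers m) (zpowers_le.mpr hm) hcm hzm
    exact mem_centS.mp (h1 (mem_zpowers m))
  have hp2 := ne_two hodd hb.2.1
  obtain ⟨z, hz, hzo, hzc⟩ := exists_z P hb.ne_bot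
  have hz1 : z ≠ 1 := by
    rintro rfl; rw [orderOf_one] at hzo; exact hp.out.one_lt.ne hzo
  have hzp : z ^ p = 1 := by rw [← hzo]; exact pow_orderOf_eq_one z
  set L := centralizer ({x} : Set G) with hLdef
  have hL := hNA L (cent_lt hG hb.ne_one)
  obtain ⟨K, hK⟩ := exists_isKp (p := p) hL
  obtain ⟨q, hq, hpi⟩ := exists_pi hG hNA P hb
  have hqp := PiQ.ne hb.2.1 hpi
  have : Fact q.Prime := ⟨hq⟩
  obtain ⟨S, hSK, hSq, hS, hSn⟩ := exists_S hK hq
  obtain ⟨T, hTL, hTp, hT⟩ := exists_qpart (nil_comm hL) hp.out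
  have hTL2 : T ≤ L := hTL.trans (comm_le_self L)
  have hTn : ∀ g ∈ L, ∀ s ∈ T, g * s * g⁻¹ ∈ T := by
    intro g hg s hs
    obtain ⟨h1, k, hk⟩ := (hT s).mp hs
    exact (hT _).mpr ⟨IsKp.conj_mem_comm hg h1, k, pow_conj' hk⟩
  have hR := isSyl_centP hG hNA P hb
  have hTR : T ≤ L ⊓ P := by
    have h1 : IsPGroup p ((L ⊓ P) ⊔ T : Subgroup G) :=
      hR.2.1.to_sup_of_normal_right' hTp
        (inf_le_left.trans fun g hg => Pool.Agent.H91.FT.mem_norm (hTn g hg))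
    have h2 := hR.2.2 _ (sup_le hR.1 hTL2) h1 le_sup_left
    rw [← h2]; exact le_sup_right
  have hTS : ∀ t ∈ T, ∀ s ∈ S, t * s = s * t := by
    intro t ht s hs
    exact Pool.Agent.H91.FT.comm_of_inf (A := T) (B := S)
      (fun a ha b hb' => hTn b (hK.le (hSK hb')) a ha)
      (fun a ha b hb' => hSn a (mem_cent.mp (hTL2 ha)) b hb')
      (Pool.Agent.H91.FT.inf_eq_bot hp.out hq hqp.symm hTp hSq) ht hs
  have hSx : ∀ s ∈ S, x * s = s * x := fun s hs => (mem_cent.mp (hK.le (hSK hs))).symm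
  have hTx : ∀ c ∈ T, c ^ p = 1 → c ∈ zpowers x := by
    intro c hc hcp
    by_contra hcx
    have hcP : c ∈ P := (hTR hc).2
    obtain ⟨i, j, hij⟩ := rank_two hG hodd hNA P hb hcP hz hcp hzp
      (mem_cent.mp (hTL2 hc)) (hzc x hb.1).symm (hzc c hcP) hcx
    obtain ⟨w, hwK, hwq, r, hr, hrx, hrw⟩ := PiQ.exists hG hNA P hb hK hpi
    have hwS := (hS w).mpr ⟨hwK, hwq⟩
    have h1 : Commute w z := by
      rw [hij]
      exact ((show Commute w x from (hSx w hwS).symm).pow_right i).mul_right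
        ((show Commute w c from (hTS c hc w hwS).symm).pow_right j)
    have hw1 : w = 1 := fixB hG hNA P hab hb hK hq hpi hz hz1 hzc hwK hwq h1.eq
    rw [hw1] at hrw
    exact hrw (by rw [mul_one, one_mul])
  have hTc : IsCyclic T := by
    refine H23.FT.isCyclic_of_unique_sub hp2 hTp ?_
    intro u hu v hv hup hvp hu1
    have h1 := hTx u hu hup
    have h2 := hTx v hv hvp
    have huo : orderOf u = p := orderOf_eq_prime hup hu1
    have h3 : zpowers u = zpowers x := by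
      apply Subgroup.eq_of_le_of_card_ge (zpowers_le.mpr h1)
      rw [Nat.card_zpowers, Nat.card_zpowers, huo, hb.2.1]
    rw [h3]; exact h2
  have hmL : m ∈ L := mem_cent.mpr hmx
  have hmT : ∀ c ∈ T, c * m = m * c := by
    refine Pool.Agent.H3.FT.cyc_cent hp.out hTp hTc hmp
      (Pool.Agent.H91.FT.mem_norm (hTn m hmL)) ?_
    intro c hc hcp
    obtain ⟨i, rfl⟩ := hTx c hc hcp
    exact ((show Commute m x from hmx).zpow_right i).eq.symm
  have hmR : zpowers m ≤ normalizer ((L ⊓ P : Subgroup G) : Set G) := by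
    rw [zpowers_le]
    apply Pool.Agent.H91.FT.mem_norm
    intro k hk
    exact ⟨L.mul_mem (L.mul_mem hmL hk.1) (L.inv_mem hmL), (mem_normalizer_iff.mp hm k).mp hk.2⟩
  have h1 : ⁅(L ⊓ P : Subgroup G), zpowers m⁆ ≤ T := by
    have h2 : ⁅(L ⊓ P : Subgroup G), zpowers m⁆ ≤ L ⊓ P := Pool.Agent.H3.FT.comm_le hmR
    intro c hc
    refine (hT c).mpr ⟨?_, exists_pow_of_mem P.2 (h2 hc).2⟩
    exact (commutator_mono inf_le_left (zpowers_le.mpr hmL)) hc
  have h2 : ⁅T, zpowers m⁆ = ⊥ := by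
    rw [commutator_eq_bot_iff_le_centralizer]
    intro t ht
    rw [mem_centralizer_iff]
    rintro _ ⟨i, rfl⟩
    exact ((show Commute t m from hmT t ht).zpow_right i).eq.symm
  have h3 : ⁅(L ⊓ P : Subgroup G), zpowers m⁆ = ⊥ :=
    Pool.Agent.H3.FT.cop_stab' hp.out hR.2.1 hmR (by rw [Nat.card_zpowers]; exact hmp) h1 h2
  refine Pool.Agent.H3.FT.axb hp.out P.2 (x := x) ⟨1, by rw [pow_one]; exact hb.pow⟩ hmp
    hmx.symm (le_normalizer hb.1) hm ?_
  intro c hc hcx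
  rw [commutator_eq_bot_iff_le_centralizer] at h3
  exact ((mem_centralizer_iff.mp (h3 ⟨mem_cent.mpr hcx, hc⟩)) m (mem_zpowers m)).symm

end

end H57.FT
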