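import Pool.Agent.H57.FT.BadC

/-!
Section 3: `C_G(x) = H(x) C_M(x)` and its consequences.
-/

namespace H57.FT

open Subgroup H51.FT
open scoped Pointwise commutatorElement

variable {G : Type*} [Group G]

section
variable [Finite G] [IsSimpleGroup G] (hG : _root_.commutator G = ⊤) (hodd : Odd (Nat.card G))
  (hNA : ∀ H : Subgroup G, H < ⊤ → Group.IsNilpotent (_root_.commutator H))
  {p : ℕ} [hp : Fact p.Prime] (P : Sylow p G)

omit [Finite G] [IsSimpleGroup G] in
lemma ne_one_of_order {x : G} (hx : orderOf x = p) : x ≠ 1 := by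
  rintro rfl
  rw [orderOf_one] at hx
  exact hp.out.one_lt.ne hx

include hG hNA in
/-- elements of order `p` which are good have `H(x) = 1` -/
theorem HH_goodP {x : G} (hxp : orderOf x = p)
    (hg : centralizer ({x} : Set G) ≤ normalizer (P : Set G)) : HH x = ⊥ := by
  have hx1 := ne_one_of_order hxp
  obtain ⟨K, hK⟩ := exists_isKp (p := p) (hNA _ (cent_lt hG hx1))
  have hno : ∀ q : ℕ, ¬ PiQ x q := by
    rintro q ⟨w, hw, -, hwc⟩
    rw [hxp] at hw hwc
    have hwK : w ∈ K := (hK.mem w).mpr hw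
    apply hwc
    rw [mem_cent_pgen]
    rintro g hg' ⟨k, hk⟩
    exact KS_cent P.2 hK hwK (hg (hK.le hwK)) (mem_of_pelt P (hg hg') hk) hg'
  rw [eq_bot_iff]
  intro y hy
  rw [mem_bot]
  refine HH_eq_one hG hNA (by rw [hxp]; exact hp.out) hy ?_
  intro q _ hpi _ _ _ _
  exact hno q hpi

omit [IsSimpleGroup G] hp in
lemma comm_le_HH {x : G} (hb : Bad P x) {K : Subgroup G}
    (hK : IsKp p (centralizer {x}) K) :
    ⁅K, centralizer ({x} : Set G) ⊓ P⁆ ≤ HH x := by
  rw [commutator_le]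
  intro k hk r hr
  have hrx : r * x = x * r := mem_cent.mp hr.1
  have hRK := hK.le_normalizer hr.1
  apply Subgroup.subset_closure
  have hcK : ⁅k, r⁆ ∈ K := by
    rw [commutatorElement_def]
    have h1 : k * (r * k⁻¹ * r⁻¹) ∈ K :=
      K.mul_mem hk ((mem_normalizer_iff.mp hRK k⁻¹).mp (K.inv_mem hk))
    have e : k * (r * k⁻¹ * r⁻¹) = k * r * k⁻¹ * r⁻¹ := by group
    rwa [e] at h1
  refine ⟨?_, ?_⟩
  · rw [hb.2.1]; exact (hK.mem _).mp hcK
  intro q hq hd
  by_contra hPi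
  have : Fact q.Prime := ⟨hq⟩
  have := hK.nil
  obtain ⟨K1, hK1, hK2⟩ := exists_pprime (N := K) q
  have hmem : ∀ y : G, y ∈ K → (orderOf y).Coprime q → y ∈ K1.map K.subtype := by
    intro y hy hyo
    exact ⟨⟨y, hy⟩, hK2 _ (by rw [Subgroup.orderOf_mk]; exact hyo), rfl⟩
  obtain ⟨y, z, hyz, hy, hz, hyq, hzc⟩ := exists_decomp q k
  have hyK : y ∈ K := (zpowers_le.mpr hk) hy
  have hzK : z ∈ K := (zpowers_le.mpr hk) hz
  have hcom : y * z = z * y := by
    obtain ⟨i, rfl⟩ := hy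
    obtain ⟨j, rfl⟩ := hz
    exact ((Commute.refl k).zpow_zpow i j).eq
  have hry : r * y = y * r := not_PiQ hb.2.1 hK hPi hyK hyq hrx (exists_pow_of_mem P.2 hr.2)
  have e : ⁅k, r⁆ = z * (r * z⁻¹ * r⁻¹) := by
    rw [commutatorElement_def, hyz]
    calc y * z * r * (y * z)⁻¹ * r⁻¹ = z * y * r * (z * y)⁻¹ * r⁻¹ := by rw [hcom]
      _ = z * (y * r) * y⁻¹ * z⁻¹ * r⁻¹ := by group
      _ = z * (r * y) * y⁻¹ * z⁻¹ * r⁻¹ := by rw [hry]
      _ = z * (r * z⁻¹ * r⁻¹) := by group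
  have h1 : ⁅k, r⁆ ∈ K1.map K.subtype := by
    rw [e]
    refine mul_mem (hmem z hzK hzc) (hmem _ ?_ ?_)
    · exact (mem_normalizer_iff.mp hRK z⁻¹).mp (K.inv_mem hzK)
    · rw [orderOf_conj', orderOf_inv]; exact hzc
  obtain ⟨u, hu, hue⟩ := h1
  rw [← hue] at hd
  have h3 : orderOf (K.subtype u) = orderOf u := orderOf_injective _ (subtype_injective _) u
  rw [h3] at hd
  have h4 : orderOf u ∣ Nat.card K1 := by
    have := orderOf_dvd_natCard (⟨u, hu⟩ : K1)
    rwa [← orderOf_submonoid] at this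
  exact hq.one_lt.ne' (Nat.eq_one_of_dvd_coprimes hK1 (hd.trans h4) dvd_rfl)

include hG hNA in
/-- (3.6) -/
theorem HH_decP {x : G} (hx : x ∈ P) (hxp : orderOf x = p) {g : G}
    (hg : g ∈ centralizer ({x} : Set G)) :
    ∃ h ∈ HH x, ∃ m ∈ centralizer ({x} : Set G) ⊓ normalizer (P : Set G), g = h * m := by
  by_cases hgood : centralizer ({x} : Set G) ≤ normalizer (P : Set G)
  · exact ⟨1, one_mem _, g, ⟨hg, hgood hg⟩, (one_mul g).symm⟩
  have hb : Bad P x := ⟨hx, hxp, hgood⟩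
  have hL := hNA _ (cent_lt hG hb.ne_one)
  obtain ⟨K, hK⟩ := exists_isKp (p := p) hL
  have hR := isSyl_centP hG hNA P hb
  obtain ⟨k, hk, n, hn, hgk⟩ := hK.le_sup_normalizer hL hR g hg
  have hRK : (centralizer ({x} : Set G) ⊓ P : Subgroup G) ≤ normalizer (K : Set G) :=
    inf_le_left.trans hK.le_normalizer
  have hpK : ¬ p ∣ Nat.card K := fun hd =>
    hp.out.one_lt.ne' (Nat.eq_one_of_dvd_coprimes hK.cop hd dvd_rfl)
  obtain ⟨c, hc, hcR, d, hd, hcd⟩ := Pool.Agent.H3.FT.cop_mul hp.out hR.2.1 hRK hpK hk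
  have hcN : c ∈ normalizer (P : Set G) := centR_le hG hNA P hb fun r hr hrx =>
    hcR r ⟨mem_cent.mpr hrx, hr⟩
  have hcx : c ∈ centralizer ({x} : Set G) := hK.le hc
  have hdH : d ∈ HH x := comm_le_HH P hb hK hd
  refine ⟨c * d * c⁻¹, (mem_normalizer_iff.mp (HH_normal x hcx) d).mp hdH, c * n,
    ⟨mul_mem hcx hn.1, mul_mem hcN (normR_le hG hNA P hb hn.2)⟩, ?_⟩
  rw [hgk, hcd]; group

include hG hNA in
theorem HH_badP {x : G} (hb : Bad P x) : HH x ≠ ⊥ := by
  intro h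
  apply hb.2.2
  intro g hg
  obtain ⟨y, hy, m, hm, rfl⟩ := HH_decP hG hNA P hb.1 hb.2.1 hg
  rw [h, mem_bot] at hy
  rw [hy, one_mul]
  exact hm.2

include hG hodd hNA in
/-- (3.5), (3.6) `H(x)` is a Hall subgroup -/
theorem HH_copP {x : G} (hx : x ∈ P) (hxp : orderOf x = p) :
    (Nat.card (HH x)).Coprime
      (Nat.card (centralizer ({x} : Set G) ⊓ normalizer (P : Set G) : Subgroup G)) := by
  by_cases hgood : centralizer ({x} : Set G) ≤ normalizer (P : Set G)
  · rw [HH_goodP hG hNA P hxp hgood, Subgroup.card_bot]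
    exact Nat.coprime_one_left _
  have hb : Bad P x := ⟨hx, hxp, hgood⟩
  rw [Nat.coprime_iff_gcd_eq_one]
  by_contra hne
  obtain ⟨q, hq, hqd⟩ := Nat.exists_prime_and_dvd hne
  have : Fact q.Prime := ⟨hq⟩
  obtain ⟨h, hh⟩ := exists_prime_orderOf_dvd_card' (G := HH x) q (hqd.trans (Nat.gcd_dvd_left _ _))
  obtain ⟨d, hd⟩ := exists_prime_orderOf_dvd_card'
    (G := (centralizer ({x} : Set G) ⊓ normalizer (P : Set G) : Subgroup G)) q
    (hqd.trans (Nat.gcd_dvd_right _ _))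
  have hpx : (orderOf x).Prime := by rw [hxp]; exact hp.out
  have hhS := (mem_HH hG hNA hpx).mp h.2
  have hpi : PiQ x q := hhS.2 q hq (by rw [Subgroup.orderOf_coe, hh])
  have hqp := PiQ.ne hb.2.1 hpi
  have hdo : orderOf (d : G) = q := by rw [Subgroup.orderOf_coe, hd]
  have hdp : ¬ p ∣ orderOf (d : G) := by
    rw [hdo]
    intro h1
    exact hqp ((Nat.prime_dvd_prime_iff_eq hp.out hq).mp h1).symm
  have hdc := cent_pprime' hG hodd hNA P hb d.2.2 (mem_cent.mp d.2.1) hdp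
  have hd1 := fixD hG hodd hNA P hb hq hpi hdc ⟨1, by
    rw [pow_one, ← hdo]; exact pow_orderOf_eq_one _⟩
  rw [hd1, orderOf_one] at hdo
  exact hq.one_lt.ne hdo

include hG hodd hNA in
/-- (3.3) `C_{H(x)}(R) = 1`, `R = C_P(x)` -/
theorem HH_fixP {x : G} (hx : x ∈ P) (hxp : orderOf x = p) {h : G} (hh : h ∈ HH x)
    (hfix : ∀ r ∈ P, r * x = x * r → r * h = h * r) : h = 1 := by
  by_cases hgood : centralizer ({x} : Set G) ≤ normalizer (P : Set G)
  · rw [HH_goodP hG hNA P hxp hgood, mem_bot] at hh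
    exact hh
  have hb : Bad P x := ⟨hx, hxp, hgood⟩
  obtain ⟨K, hK⟩ := exists_isKp (p := p) (hNA _ (cent_lt hG hb.ne_one))
  refine HH_eq_one hG hNA (by rw [hxp]; exact hp.out) hh ?_
  intro q hq hpi w hw hwK hwo
  rw [hxp] at hwK
  have hwK' : w ∈ K := (hK.mem w).mpr hwK
  have hw1 : w = 1 := by
    refine fixR hG hodd hNA P hb hK hq hpi hwK' ⟨1, by
      rw [pow_one, ← hwo]; exact pow_orderOf_eq_one w⟩ ?_
    intro r hr hrx
    obtain ⟨i, rfl⟩ := hw
    exact ((show Commute r h from hfix r hr hrx).zpow_right i).eq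
  rw [hw1, orderOf_one] at hwo
  exact hq.one_lt.ne hwo

include hG hNA in
/-- (3.3) type B: `C_{H(x)}(z) = 1` for central `z` -/
theorem HH_fixzP (hnab : ¬ ∀ a ∈ P, ∀ b ∈ P, a * b = b * a) {x : G} (hb : Bad P x) {z : G}
    (hz : z ∈ P) (hz1 : z ≠ 1) (hzc : ∀ a ∈ P, a * z = z * a) {h : G} (hh : h ∈ HH x)
    (hfix : h * z = z * h) : h = 1 := by
  obtain ⟨K, hK⟩ := exists_isKp (p := p) (hNA _ (cent_lt hG hb.ne_one))
  refine HH_eq_one hG hNA (by rw [hb.2.1]; exact hp.out) hh ?_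
  intro q hq hpi w hw hwK hwo
  rw [hb.2.1] at hwK
  have hwK' : w ∈ K := (hK.mem w).mpr hwK
  have hw1 : w = 1 := by
    refine fixB hG hNA P hnab hb hK hq hpi hz hz1 hzc hwK' ⟨1, by
      rw [pow_one, ← hwo]; exact pow_orderOf_eq_one w⟩ ?_
    obtain ⟨i, rfl⟩ := hw
    exact ((show Commute z h from hfix.symm).zpow_right i).eq.symm
  rw [hw1, orderOf_one] at hwo
  exact hq.one_lt.ne hwo

/-- the subgroup generated by the elements of order `p` of `P` -/
def Om {p : ℕ} (P : Sylow p G) : Subgroup G := closure {c | c ∈ P ∧ c ^ p = 1}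

omit [IsSimpleGroup G] hp in
lemma norm_Om : normalizer (P : Set G) ≤ normalizer (Om P : Set G) := by
  intro g hg
  apply Pool.Agent.H91.FT.mem_norm
  intro y hy
  rw [Om] at hy ⊢
  induction hy using closure_induction with
  | mem c hc =>
    exact subset_closure ⟨(mem_normalizer_iff.mp hg c).mp hc.1, pow_conj' hc.2⟩
  | one => simp
  | mul a b _ _ iha ihb =>
    have : g * (a * b) * g⁻¹ = (g * a * g⁻¹) * (g * b * g⁻¹) := by group
    rw [this]; exact mul_mem iha ihb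
  | inv a _ iha =>
    have : g * a⁻¹ * g⁻¹ = (g * a * g⁻¹)⁻¹ := by group
    rw [this]; exact inv_mem iha

include hG hNA in
/-- the normaliser of `N_G(P)`-invariant subgroups of `P` -/
lemma norm_eq (hP : (P : Subgroup G) ≠ ⊥) {X : Subgroup G} (hX : X ≠ ⊥) (hXP : X ≤ P)
    (hN : normalizer (P : Set G) ≤ normalizer (X : Set G)) :
    normalizer (X : Set G) = normalizer (P : Set G) := by
  apply normalizer_eq_of_inv (sylC hG hNA) hG hNA P hX _ hP hN
  intro h
  have h2 : (P : Subgroup G) = ⊤ := top_le_iff.mp (h ▸ hXP)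
  have h3 : (P : Subgroup G).Normal := by rw [h2]; infer_instance
  exact normalizer_ne_top hG P.2 hP (normalizer_eq_top_iff.mpr h3)

include hG hNA in
lemma not_norm {x : G} (hb : Bad P x) :
    ¬ normalizer (P : Set G) ≤ normalizer (zpowers x : Set G) := by
  intro hN
  apply hb.2.2
  rw [← norm_eq hG hNA P hb.ne_bot (by rw [Ne, zpowers_eq_bot]; exact hb.ne_one)
    (zpowers_le.mpr hb.1) hN]
  intro g hg
  exact mem_norm_zp (mem_cent.mp hg)

include hG hNA in
/-- type A: there is an element of order `p` outside `⟨x⟩` -/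
theorem exists_AP {x : G} (hb : Bad P x) :
    ∃ a ∈ P, a ^ p = 1 ∧ a ∉ zpowers x := by
  by_contra hno
  push Not at hno
  apply not_norm hG hNA P hb
  intro g hg
  apply Pool.Agent.H91.FT.mem_norm
  rintro _ ⟨i, rfl⟩
  change g * x ^ i * g⁻¹ ∈ zpowers x
  rw [← conj_zpow]
  exact zpow_mem (hno _ ((mem_normalizer_iff.mp hg x).mp hb.1) (pow_conj' hb.pow)) i

include hG hodd hNA in
/-- (3.10) -/
theorem HH_fixAP {x : G} (hb : Bad P x) {a : G} (ha : a ∈ P) (hap : a ^ p = 1)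
    (hax : a * x = x * a) (hna : a ∉ zpowers x) {h : G} (hh : h ∈ HH x)
    (hfix : h * a = a * h) : h = 1 := by
  have hhx : h * x = x * h := mem_cent.mp (HH_le x hh)
  by_cases hab : ∀ a ∈ P, ∀ b ∈ P, a * b = b * a
  · have hhN : h ∈ normalizer (P : Set G) := by
      have hO1 : Om P ≠ ⊥ := by
        intro h1
        have h2 : x ∈ Om P := subset_closure ⟨hb.1, hb.pow⟩
        rw [h1, mem_bot] at h2
        exact hb.ne_one h2
      have hOP : Om P ≤ P := by
        rw [Om, closure_le]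
        intro c hc
        exact hc.1
      rw [← norm_eq hG hNA P hb.ne_bot hO1 hOP (norm_Om P)]
      have h3 : Om P ≤ centralizer ({h} : Set G) := by
        rw [Om, closure_le]
        rintro c ⟨hc, hcp⟩
        obtain ⟨i, j, rfl⟩ := rank_two hG hodd hNA P hb ha hc hap hcp hax (hab c hc x hb.1)
          (hab a ha c hc) hna
        change x ^ i * a ^ j ∈ centralizer ({h} : Set G)
        rw [mem_cent]
        exact (((show Commute h x from hhx).pow_right i).mul_right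
          ((show Commute h a from hfix).pow_right j)).eq.symm
      apply Pool.Agent.H91.FT.mem_norm
      intro k hk
      rw [← mem_cent.mp (h3 hk), mul_inv_cancel_right]
      exact hk
    have hcop := HH_copP hG hodd hNA P hb.1 hb.2.1
    have h1 : orderOf h ∣ Nat.card (HH x) := by
      have := orderOf_dvd_natCard (⟨h, hh⟩ : HH x)
      rwa [Subgroup.orderOf_mk] at this
    have h2 : orderOf h ∣
        Nat.card (centralizer ({x} : Set G) ⊓ normalizer (P : Set G) : Subgroup G) := by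
      have h5 : h ∈ (centralizer ({x} : Set G) ⊓ normalizer (P : Set G) : Subgroup G) :=
        ⟨HH_le x hh, hhN⟩
      have := orderOf_dvd_natCard (⟨h, h5⟩ :
        (centralizer ({x} : Set G) ⊓ normalizer (P : Set G) : Subgroup G))
      rwa [Subgroup.orderOf_mk h h5] at this
    exact orderOf_eq_one_iff.mp (Nat.eq_one_of_dvd_coprimes hcop h1 h2)
  · obtain ⟨z, hz, hzo, hzc⟩ := exists_z P hb.ne_bot
    have hz1 : z ≠ 1 := ne_one_of_order hzo
    have hzp : z ^ p = 1 := by rw [← hzo]; exact pow_orderOf_eq_one z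
    obtain ⟨i, j, hij⟩ := rank_two hG hodd hNA P hb ha hz hap hzp hax (hzc x hb.1).symm
      (hzc a ha) hna
    apply HH_fixzP hG hNA P hab hb hz hz1 hzc hh
    rw [hij]
    exact (((show Commute h x from hhx).pow_right i).mul_right
      ((show Commute h a from hfix).pow_right j)).eq

include hG hNA in
/-- (3.7) type A -/
theorem norm_AP (hab : ∀ a ∈ P, ∀ b ∈ P, a * b = b * a) {x : G} (hb : Bad P x) {m : G}
    (hm : m ∈ normalizer (P : Set G)) (hmx : m ∈ normalizer (zpowers x : Set G)) :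
    ∀ a ∈ P, a * m = m * a := by
  have key : m ∈ centralizer ((P : Subgroup G) : Set G) := by
    apply Pool.Agent.H3.FT.mem_of_parts
    intro q hq w hw hwq
    have hwN : w ∈ normalizer (P : Set G) := (zpowers_le.mpr hm) hw
    by_cases hqp : q = p
    · subst hqp
      obtain ⟨k, hk⟩ := hwq
      have hwP := mem_of_pelt P hwN hk
      exact mem_centS.mpr fun a ha => hab a ha w hwP
    have : Fact q.Prime := ⟨hq⟩
    set J := normalizer (zpowers x : Set G) with hJ
    have hwJ : w ∈ J := (zpowers_le.mpr hmx) hw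
    have hxp : IsPGroup p (zpowers x) :=
      Pool.Agent.H3.FT.zpowers_pgroup (k := 1) (by rw [pow_one]; exact hb.pow)
    have hJlt : J < ⊤ := lt_top_iff_ne_top.mpr
      (normalizer_ne_top hG hxp (by rw [Ne, zpowers_eq_bot]; exact hb.ne_one))
    have hPJ : (P : Subgroup G) ≤ J := fun a ha => mem_norm_zp (hab a ha x hb.1)
    set D : Subgroup G := ⁅(P : Subgroup G), zpowers w⁆ with hD
    have hwPn : zpowers w ≤ normalizer (P : Set G) := zpowers_le.mpr hwN
    have hDP : D ≤ P := Pool.Agent.H3.FT.comm_le hwPn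
    by_cases hD1 : D = ⊥
    · rw [hD, commutator_eq_bot_iff_le_centralizer] at hD1
      exact mem_centS.mpr fun a ha =>
        (mem_centralizer_iff.mp (hD1 ha) w (mem_zpowers w)).symm
    exfalso
    have hND : normalizer (P : Set G) ≤ normalizer (D : Set G) := by
      have key2 : ∀ g ∈ normalizer (P : Set G), D.map (MulAut.conj g).toMonoidHom ≤ D := by
        intro g hg
        rw [hD, map_commutator, commutator_le]
        rintro _ ⟨a, ha, rfl⟩ _ ⟨b, hb', rfl⟩
        change ⁅g * a * g⁻¹, g * b * g⁻¹⁆ ∈ _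
        have haP : g * a * g⁻¹ ∈ P := (mem_normalizer_iff.mp hg a).mp ha
        have hbN := hwPn hb'
        have h1 := conj_comm hG hNA P hab hb.ne_bot (inv_mem hg) hbN (inv_mem haP)
        have e : ⁅g * a * g⁻¹, g * b * g⁻¹⁆ = ⁅g * a * g⁻¹, b⁆ := by
          rw [commutatorElement_def, commutatorElement_def]
          calc g * a * g⁻¹ * (g * b * g⁻¹) * (g * a * g⁻¹)⁻¹ * (g * b * g⁻¹)⁻¹
              = g * a * g⁻¹ * ((g⁻¹⁻¹ * b * g⁻¹) * (g * a * g⁻¹)⁻¹ * (g⁻¹⁻¹ * b * g⁻¹)⁻¹) := by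
                group
            _ = g * a * g⁻¹ * (b * (g * a * g⁻¹)⁻¹ * b⁻¹) := by rw [h1]
            _ = g * a * g⁻¹ * b * (g * a * g⁻¹)⁻¹ * b⁻¹ := by group
        rw [e]
        exact commutator_mem_commutator haP hb'
      intro g hg
      apply Pool.Agent.H91.FT.mem_norm
      intro k hk
      exact key2 g hg ⟨k, hk, rfl⟩
    have hNDe := norm_eq hG hNA P hb.ne_bot hD1 hDP hND
    obtain ⟨T, hTJ, hTp, hT⟩ := exists_qpart (nil_comm (hNA J hJlt)) hp.out
    have hDT : D ≤ T := by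
      intro d hd
      refine (hT d).mpr ⟨?_, exists_pow_of_mem P.2 (hDP hd)⟩
      exact (commutator_mono hPJ (zpowers_le.mpr hwJ)) hd
    obtain ⟨K, hK⟩ := exists_isKp (p := p) (hNA _ (cent_lt hG hb.ne_one))
    obtain ⟨r, hr, hpi⟩ := exists_pi hG hNA P hb
    have hrp := PiQ.ne hb.2.1 hpi
    obtain ⟨S, hSK, hSr, hS⟩ := exists_qpart hK.nil hr
    have hSJ : S ≤ J := fun s hs => mem_norm_zp (mem_cent.mp (hK.le (hSK hs)))
    have hJS : ∀ g ∈ J, ∀ s ∈ S, g * s * g⁻¹ ∈ S := by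
      intro g hg s hs
      obtain ⟨h1, k, hk⟩ := (hS s).mp hs
      exact (hS _).mpr ⟨KS_norm hK hg h1, k, pow_conj' hk⟩
    have hJT : ∀ g ∈ J, ∀ s ∈ T, g * s * g⁻¹ ∈ T := by
      intro g hg s hs
      obtain ⟨h1, k, hk⟩ := (hT s).mp hs
      exact (hT _).mpr ⟨IsKp.conj_mem_comm hg h1, k, pow_conj' hk⟩
    have hTJ2 : T ≤ J := hTJ.trans (comm_le_self J)
    have hSN : S ≤ normalizer (P : Set G) := by
      rw [← hNDe]
      intro s hs
      apply Pool.Agent.H91.FT.mem_norm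
      intro d hd
      have h1 : d * s = s * d := Pool.Agent.H91.FT.comm_of_inf (A := T) (B := S)
        (fun a ha b hb' => hJT b (hSJ hb') a ha) (fun a ha b hb' => hJS a (hTJ2 ha) b hb')
        (Pool.Agent.H91.FT.inf_eq_bot hp.out hr hrp.symm hTp hSr) (hDT hd) hs
      rw [← h1, mul_inv_cancel_right]
      exact hd
    obtain ⟨u, huK, huq, c, hc, hcx, hcu⟩ := PiQ.exists hG hNA P hb hK hpi
    apply hcu
    exact KS_cent P.2 hK huK (hSN ((hS u).mpr ⟨huK, huq⟩)) hc (mem_cent.mpr hcx)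
  exact mem_centS.mp key

include hG hodd hNA in
/-- (3.8) type B, first step: an element `t` of `P` with `t x t⁻¹ = x z ^ b`, `p ∤ b` -/
lemma exists_t (hnab : ¬ ∀ a ∈ P, ∀ b ∈ P, a * b = b * a) {x : G} (hb : Bad P x) {z : G}
    (hz : z ∈ P) (hz1 : z ≠ 1) (hzp : z ^ p = 1) (hzc : ∀ a ∈ P, a * z = z * a) :
    ∃ t ∈ P, ∃ b : ℕ, t * x * t⁻¹ = x * z ^ b ∧ ¬ p ∣ b := by
  set R : Subgroup G := centralizer ({x} : Set G) ⊓ P with hR
  have hRP : R < P := by
    refine lt_of_le_of_ne inf_le_right ?_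
    intro h
    apply bad_not_central hG hNA P hnab hb
    intro a ha
    have h1 : a ∈ R := by rw [h]; exact ha
    exact mem_cent.mp h1.1
  obtain ⟨t, ht, htR⟩ := SetLike.exists_of_lt (lt_inf_normalizer P.2 hRP)
  have htP : t ∈ P := ht.1
  have htx : ¬ t * x = x * t := fun h => htR ⟨mem_cent.mpr h, htP⟩
  have hxR : x ∈ R := ⟨mem_cent.mpr rfl, hb.1⟩
  have h1 : t * x * t⁻¹ ∈ R := (mem_normalizer_iff.mp ht.2 x).mp hxR
  obtain ⟨a, b, hab⟩ := omega_B hG hodd hNA P hnab hb hz hz1 hzp hzc h1.2 (pow_conj' hb.pow)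
    (mem_cent.mp h1.1)
  have hxz : Commute x z := hzc x hb.1
  have htz : Commute t z := hzc t htP
  -- iterate
  have hit : ∀ n : ℕ, ∃ c : ℕ, t ^ n * x * (t ^ n)⁻¹ = x ^ a ^ n * z ^ c := by
    intro n
    induction n with
    | zero => exact ⟨0, by simp⟩
    | succ n ih =>
      obtain ⟨c, hc⟩ := ih
      refine ⟨b * a ^ n + c, ?_⟩
      have e1 : t ^ (n + 1) * x * (t ^ (n + 1))⁻¹ = t * (t ^ n * x * (t ^ n)⁻¹) * t⁻¹ := by
        rw [pow_succ' t n]; group
      have e2 : t * (x ^ a ^ n * z ^ c) * t⁻¹ = (t * x * t⁻¹) ^ a ^ n * z ^ c := by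
        rw [conj_pow]
        have e3 : t * z ^ c = z ^ c * t := (htz.pow_right c).eq
        calc t * (x ^ a ^ n * z ^ c) * t⁻¹ = t * x ^ a ^ n * z ^ c * t⁻¹ := by group
          _ = t * x ^ a ^ n * (t⁻¹ * (t * z ^ c)) * t⁻¹ := by group
          _ = t * x ^ a ^ n * (t⁻¹ * (z ^ c * t)) * t⁻¹ := by rw [e3]
          _ = t * x ^ a ^ n * t⁻¹ * z ^ c := by group
      rw [e1, hc, e2, hab]
      have e4 : (x ^ a * z ^ b) ^ a ^ n = x ^ (a * a ^ n) * z ^ (b * a ^ n) := by
        rw [(hxz.pow_pow a b).mul_pow, ← pow_mul, ← pow_mul]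
      rw [e4, pow_succ' a n, pow_add z, ← mul_assoc]
  obtain ⟨k, hk⟩ := exists_pow_of_mem P.2 htP
  obtain ⟨c, hc⟩ := hit (p ^ k)
  rw [hk] at hc
  have hc' : x = x ^ a ^ p ^ k * z ^ c := by
    calc x = 1 * x * 1⁻¹ := by group
      _ = _ := hc
  -- `a ≡ 1` modulo `p`
  have hxz0 : ∀ i j : ℕ, x ^ i = z ^ j → p ∣ i := by
    intro i j hij
    by_contra hi
    apply bad_not_central hG hNA P hnab hb
    have hcop : (orderOf x).Coprime i := by
      rw [hb.2.1]; exact (hp.out.coprime_iff_not_dvd).mpr hi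
    obtain ⟨l, hl⟩ := exists_pow_eq_self_of_coprime hcop.symm
    intro y hy
    rw [← hl, hij]
    exact (((show Commute y z from hzc y hy).pow_right j).pow_right l).eq
  have ha0 : 0 < a := by
    rcases Nat.eq_zero_or_pos a with rfl | h
    · exfalso
      have h2 : t * x * t⁻¹ = z ^ b := by rw [hab]; simp
      have h3 : x = z ^ b := by
        calc x = t⁻¹ * (t * x * t⁻¹) * t := by group
          _ = t⁻¹ * z ^ b * t := by rw [h2]
          _ = t⁻¹ * (t * z ^ b) := by rw [mul_assoc, ← (htz.pow_right b).eq]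
          _ = z ^ b := by group
      have h4 := hxz0 1 b (by rw [pow_one]; exact h3)
      exact hp.out.one_lt.ne' (Nat.dvd_one.mp h4)
    · exact h
  have hap0 : 0 < a ^ p ^ k := pow_pos ha0 _
  have h5 : p ∣ a ^ p ^ k - 1 := by
    apply hxz0 (a ^ p ^ k - 1) (c * (p - 1))
    have e1 : x ^ (a ^ p ^ k) * z ^ c = x := hc'.symm
    have e2 : x ^ (a ^ p ^ k - 1) * z ^ c = 1 := by
      have e3 : x ^ (a ^ p ^ k) = x * x ^ (a ^ p ^ k - 1) := by
        rw [← pow_succ']; congr 1; omega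
      rw [e3, mul_assoc] at e1
      exact mul_eq_left.mp e1
    have e4 : z ^ (c * (p - 1)) * z ^ c = 1 := by
      rw [← pow_add]
      have : c * (p - 1) + c = p * c := by
        have := hp.out.one_lt
        obtain ⟨p', hp'⟩ : ∃ p', p = p' + 1 := ⟨p - 1, by omega⟩
        rw [hp']; simp only [Nat.add_sub_cancel]; ring
      rw [this, pow_mul, hzp, one_pow]
    exact mul_right_cancel (e2.trans e4.symm)
  have h6 : a % p = 1 % p := by
    have h7 : (a ^ p ^ k) ≡ 1 [MOD p] := ((Nat.modEq_iff_dvd' hap0).mpr h5).symm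
    have h8 : a ^ p ^ k ≡ a [MOD p] := by
      rw [← ZMod.natCast_eq_natCast_iff]
      push_cast
      exact ZMod.pow_card_pow _
    exact h8.symm.trans h7
  have h9 : x ^ a = x := by
    have := pow_mod_orderOf x a
    rw [hb.2.1, h6] at this
    rw [← this, Nat.mod_eq_of_lt hp.out.one_lt, pow_one]
  rw [h9] at hab
  refine ⟨t, htP, b, hab, ?_⟩
  intro hpb
  apply htx
  obtain ⟨l, rfl⟩ := hpb
  rw [pow_mul, hzp, one_pow, mul_one, mul_inv_eq_iff_eq_mul] at hab
  exact hab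

omit [IsSimpleGroup G] [Finite G] hp in
lemma cent_pow_eq {x : G} {i : ℕ} (h : (orderOf x).Coprime i) :
    centralizer ({x ^ i} : Set G) = centralizer ({x} : Set G) := by
  obtain ⟨l, hl⟩ := exists_pow_eq_self_of_coprime h.symm
  ext g
  rw [mem_cent, mem_cent]
  constructor
  · intro h1
    rw [← hl]
    exact ((show Commute g (x ^ i) from h1).pow_right l).eq
  · intro h1
    exact ((show Commute g x from h1).pow_right i).eq

include hG hodd hNA in
/-- (3.8) type B: the elements of `⟨x, z⟩` outside `⟨z⟩` are bad -/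
theorem bad_BP (hnab : ¬ ∀ a ∈ P, ∀ b ∈ P, a * b = b * a) {x : G} (hb : Bad P x) {z : G}
    (hz : z ∈ P) (hzp : z ^ p = 1) (hzc : ∀ a ∈ P, a * z = z * a) {i j : ℕ}
    (hi : ¬ p ∣ i) : Bad P (x ^ i * z ^ j) := by
  have hcopi : (orderOf x).Coprime i := by
    rw [hb.2.1]; exact (hp.out.coprime_iff_not_dvd).mpr hi
  have hpow : Bad P (x ^ i) := by
    refine ⟨pow_mem hb.1 i, ?_, ?_⟩
    · rw [hcopi.orderOf_pow]; exact hb.2.1
    · rw [cent_pow_eq hcopi]; exact hb.2.2
  by_cases hz1 : z = 1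
  · rw [hz1, one_pow, mul_one]; exact hpow
  obtain ⟨t, ht, b, htb, hpb⟩ := exists_t hG hodd hNA P hnab hb hz hz1 hzp hzc
  have htz : Commute t z := hzc t ht
  have hxz : Commute x z := hzc x hb.1
  have hit : ∀ n : ℕ, t ^ n * x * (t ^ n)⁻¹ = x * z ^ (n * b) := by
    intro n
    induction n with
    | zero => simp
    | succ n ih =>
      have e1 : t ^ (n + 1) * x * (t ^ (n + 1))⁻¹ = t * (t ^ n * x * (t ^ n)⁻¹) * t⁻¹ := by
        rw [pow_succ' t n]; group
      rw [e1, ih]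
      calc t * (x * z ^ (n * b)) * t⁻¹ = t * x * t⁻¹ * (t * z ^ (n * b) * t⁻¹) := by group
        _ = x * z ^ b * (z ^ (n * b)) := by
            rw [htb, (htz.pow_right (n * b)).eq, mul_inv_cancel_right]
        _ = x * z ^ ((n + 1) * b) := by rw [mul_assoc, ← pow_add]; congr 2; ring
  -- choose `n` with `n b i ≡ j`
  have hbi : ¬ p ∣ b * i := fun h => ((hp.out.dvd_mul).mp h).elim hpb hi
  have hne : ((b * i : ℕ) : ZMod p) ≠ 0 := by
    intro h
    exact hbi ((ZMod.natCast_eq_zero_iff _ _).mp h)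
  obtain ⟨n, hn⟩ : ∃ n : ℕ, n * b * i ≡ j [MOD p] := by
    refine ⟨((j : ZMod p) * ((b * i : ℕ) : ZMod p)⁻¹).val, ?_⟩
    rw [← ZMod.natCast_eq_natCast_iff]
    rw [mul_assoc, Nat.cast_mul, ZMod.natCast_val, ZMod.cast_id]
    rw [mul_assoc, inv_mul_cancel₀ hne, mul_one]
  have hcz : z ^ (n * b * i) = z ^ j := by
    have hzo : orderOf z = p := orderOf_eq_prime hzp hz1
    rw [pow_eq_pow_iff_modEq, hzo]; exact hn
  have hconj : t ^ n * x ^ i * (t ^ n)⁻¹ = x ^ i * z ^ j := by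
    rw [← conj_pow, hit n, (hxz.pow_right (n * b)).mul_pow, ← pow_mul, hcz]
  rw [← hconj]
  have htN : t ^ n ∈ normalizer (P : Set G) := le_normalizer (pow_mem ht n)
  refine ⟨(mem_normalizer_iff.mp htN _).mp hpow.1, ?_, ?_⟩
  · rw [orderOf_conj']; exact hpow.2.1
  · intro h
    apply hpow.2.2
    intro g hg
    have h1 : t ^ n * g * (t ^ n)⁻¹ ∈ centralizer ({t ^ n * x ^ i * (t ^ n)⁻¹} : Set G) := by
      rw [cent_conj]; exact ⟨g, hg, rfl⟩
    have h2 := h h1
    have h3 : g = (t ^ n)⁻¹ * (t ^ n * g * (t ^ n)⁻¹) * t ^ n := by group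
    rw [h3]
    exact mul_mem (mul_mem (inv_mem htN) h2) htN

end

end H57.FT
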