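import Pool.Agent.H51.FT.Kp

/-!
Section 3 of the local analysis, definitions. `x` has prime order `p = orderOf x`.

`Bad P x`: `x` is an element of order `p` of the Sylow subgroup `P` and its centraliser is not
contained in the normaliser of `P`.
`HH x` (the group `H(x)` of the paper): let `L = C_G(x)`, `K` the set of `p'`-elements of `[L,L]`,
`E` the subgroup generated by the `p`-elements of `L`. `HH x` is the set of those `y ∈ K` such
that for every prime divisor `q` of the order of `y` not all `q`-elements of `K` centralise `E`.
It depends only on `x`, not on `P`; it is `⊥` when `x` is good.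
-/

namespace H57.FT

open Subgroup H51.FT
open scoped Pointwise

variable {G : Type*} [Group G]

/-- `x` is a bad element of order `p` of `P` -/
def Bad {p : ℕ} (P : Sylow p G) (x : G) : Prop :=
  x ∈ P ∧ orderOf x = p ∧ ¬ centralizer ({x} : Set G) ≤ normalizer (P : Set G)

/-- the subgroup generated by the `p`-elements of `L` -/
def pgen (p : ℕ) (L : Subgroup G) : Subgroup G := closure {g | g ∈ L ∧ ∃ k : ℕ, g ^ p ^ k = 1}

/-- the set of `p'`-elements of `[L, L]` (a nilpotent subgroup if `[L, L]` is nilpotent) -/
def KS (p : ℕ) (L : Subgroup G) : Set G := {y | y ∈ (⁅L, L⁆ : Subgroup G) ∧ (orderOf y).Coprime p}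

/-- the set underlying `HH x` -/
def HS (x : G) : Set G :=
  {y | y ∈ KS (orderOf x) (centralizer {x}) ∧ ∀ q : ℕ, q.Prime → q ∣ orderOf y →
    ∃ w ∈ KS (orderOf x) (centralizer {x}), (∃ k : ℕ, w ^ q ^ k = 1) ∧
      w ∉ centralizer (pgen (orderOf x) (centralizer {x}) : Set G)}

/-- the group `H(x)` -/
def HH (x : G) : Subgroup G := closure (HS x)

end H57.FT
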