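import Pool.Agent.H57.FT.Nil

/-!
The group `HH x` as a set, its behaviour under conjugation.
-/

namespace H57.FT

open Subgroup H51.FT
open scoped Pointwise commutatorElement

variable {G : Type*} [Group G]

/-- `q` is one of the primes of `HH x` -/
def PiQ (x : G) (q : ℕ) : Prop :=
  ∃ w ∈ KS (orderOf x) (centralizer {x}), (∃ k : ℕ, w ^ q ^ k = 1) ∧
    w ∉ centralizer (pgen (orderOf x) (centralizer {x}) : Set G)

lemma mem_HS {x y : G} : y ∈ HS x ↔ y ∈ KS (orderOf x) (centralizer {x}) ∧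
    ∀ q : ℕ, q.Prime → q ∣ orderOf y → PiQ x q := Iff.rfl

lemma mem_cent_pgen {p : ℕ} {L : Subgroup G} {w : G} :
    w ∈ centralizer (pgen p L : Set G) ↔ ∀ g ∈ L, (∃ k : ℕ, g ^ p ^ k = 1) → g * w = w * g := by
  constructor
  · intro h g hg hk
    exact mem_centS.mp h g (subset_closure ⟨hg, hk⟩)
  · intro h
    have h1 : pgen p L ≤ centralizer ({w} : Set G) := by
      rw [pgen, closure_le]
      rintro g ⟨hg, hk⟩
      exact mem_cent.mpr (h g hg hk)
    rw [mem_centS]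
    intro a ha
    exact mem_cent.mp (h1 ha)

lemma cent_conj (g x : G) :
    centralizer ({g * x * g⁻¹} : Set G) = (centralizer ({x} : Set G)).map
      (MulAut.conj g).toMonoidHom := by
  ext y
  constructor
  · intro hy
    refine ⟨g⁻¹ * y * g, ?_, ?_⟩
    · have h1 := mem_cent.mp hy
      change g⁻¹ * y * g ∈ centralizer ({x} : Set G)
      rw [mem_cent]
      calc g⁻¹ * y * g * x = g⁻¹ * (y * (g * x * g⁻¹)) * g := by group
        _ = g⁻¹ * (g * x * g⁻¹ * y) * g := by rw [h1]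
        _ = x * (g⁻¹ * y * g) := by group
    · change g * (g⁻¹ * y * g) * g⁻¹ = y
      group
  · rintro ⟨z, hz, rfl⟩
    have h1 : z * x = x * z := mem_cent.mp hz
    rw [mem_cent]
    change g * z * g⁻¹ * (g * x * g⁻¹) = g * x * g⁻¹ * (g * z * g⁻¹)
    calc g * z * g⁻¹ * (g * x * g⁻¹) = g * (z * x) * g⁻¹ := by group
      _ = g * (x * z) * g⁻¹ := by rw [h1]
      _ = g * x * g⁻¹ * (g * z * g⁻¹) := by group

lemma KS_conj {p : ℕ} {x y : G} (g : G) (hy : y ∈ KS p (centralizer {x})) :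
    g * y * g⁻¹ ∈ KS p (centralizer {g * x * g⁻¹}) := by
  refine ⟨?_, ?_⟩
  · rw [cent_conj, ← map_commutator]
    exact ⟨y, hy.1, rfl⟩
  · rw [orderOf_conj']; exact hy.2

lemma pow_conj' {g w : G} {n : ℕ} (h : w ^ n = 1) : (g * w * g⁻¹) ^ n = 1 := by
  rw [conj_pow, h, mul_one, mul_inv_cancel]

lemma PiQ_conj {x : G} {q : ℕ} (g : G) (h : PiQ x q) : PiQ (g * x * g⁻¹) q := by
  obtain ⟨w, hw, ⟨k, hk⟩, hc⟩ := h
  refine ⟨g * w * g⁻¹, ?_, ⟨k, pow_conj' hk⟩, ?_⟩
  · rw [orderOf_conj']; exact KS_conj g hw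
  · rw [orderOf_conj']
    intro h1
    apply hc
    rw [mem_cent_pgen] at h1 ⊢
    rintro a ha ⟨j, hj⟩
    have h2 := h1 (g * a * g⁻¹) (by rw [cent_conj]; exact ⟨a, ha, rfl⟩) ⟨j, pow_conj' hj⟩
    calc a * w = g⁻¹ * (g * a * g⁻¹ * (g * w * g⁻¹)) * g := by group
      _ = g⁻¹ * (g * w * g⁻¹ * (g * a * g⁻¹)) * g := by rw [h2]
      _ = w * a := by group

lemma HS_conj {x y : G} (g : G) (hy : y ∈ HS x) : g * y * g⁻¹ ∈ HS (g * x * g⁻¹) := by
  refine ⟨?_, fun q hq hd => ?_⟩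
  · rw [orderOf_conj']; exact KS_conj g hy.1
  · rw [orderOf_conj'] at hd
    exact PiQ_conj g (hy.2 q hq hd)

theorem HH_conj (g x : G) : HH (g * x * g⁻¹) = MulAut.conj g • HH x := by
  have key : ∀ g x : G, HH (g * x * g⁻¹) ≤ MulAut.conj g • HH x := by
    intro g x
    rw [HH, closure_le]
    intro y hy
    have h1 := HS_conj g⁻¹ hy
    have e : g⁻¹ * (g * x * g⁻¹) * g⁻¹⁻¹ = x := by group
    rw [e] at h1
    refine ⟨g⁻¹ * y * g⁻¹⁻¹, subset_closure h1, ?_⟩
    change g * (g⁻¹ * y * g⁻¹⁻¹) * g⁻¹ = y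
    group
  apply le_antisymm (key g x)
  have h1 := key g⁻¹ (g * x * g⁻¹)
  have e : g⁻¹ * (g * x * g⁻¹) * g⁻¹⁻¹ = x := by group
  rw [e, map_inv] at h1
  rw [← Subgroup.pointwise_smul_le_pointwise_smul_iff (a := (MulAut.conj g)⁻¹), inv_smul_smul]
  exact h1

theorem HH_le (x : G) : HH x ≤ centralizer ({x} : Set G) := by
  rw [HH, closure_le]
  intro y hy
  exact comm_le_self _ hy.1.1

theorem HH_normal (x : G) : centralizer ({x} : Set G) ≤ normalizer (HH x : Set G) := by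
  have key : ∀ g ∈ centralizer ({x} : Set G), ∀ y ∈ HH x, g * y * g⁻¹ ∈ HH x := by
    intro g hg y hy
    have h1 := HH_conj g x
    have h2 : g * x * g⁻¹ = x := by rw [mem_cent.mp hg]; group
    rw [h2] at h1
    rw [h1]
    exact ⟨y, hy, rfl⟩
  intro g hg
  rw [mem_normalizer_iff]
  intro y
  constructor
  · exact key g hg y
  · intro hy
    have h1 := key g⁻¹ (inv_mem hg) _ hy
    have e : g⁻¹ * (g * y * g⁻¹) * g⁻¹⁻¹ = y := by group
    rwa [e] at h1

section
variable [Finite G] [IsSimpleGroup G] (hG : _root_.commutator G = ⊤)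
  (hNA : ∀ H : Subgroup G, H < ⊤ → Group.IsNilpotent (_root_.commutator H))

include hG hNA

theorem mem_HH {x : G} (hx : (orderOf x).Prime) {y : G} : y ∈ HH x ↔ y ∈ HS x := by
  refine ⟨fun hy => ?_, fun hy => subset_closure hy⟩
  have hx1 : x ≠ 1 := by rintro rfl; rw [orderOf_one] at hx; exact Nat.not_prime_one hx
  have : Fact (orderOf x).Prime := ⟨hx⟩
  obtain ⟨K, hK⟩ := exists_isKp (p := orderOf x) (hNA _ (cent_lt hG hx1))
  have h1 : HH x ≤ K := by
    rw [HH, closure_le]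
    intro w hw
    exact (hK.mem w).mpr hw.1
  refine ⟨(hK.mem y).mp (h1 hy), ?_⟩
  intro q hq hd
  by_contra hPi
  have : Fact q.Prime := ⟨hq⟩
  have := hK.nil
  obtain ⟨K1, hK1, hK2⟩ := exists_pprime (N := K) q
  have h2 : HH x ≤ K1.map K.subtype := by
    rw [HH, closure_le]
    intro w hw
    have hwK : w ∈ K := (hK.mem w).mpr hw.1
    refine ⟨⟨w, hwK⟩, hK2 _ ?_, rfl⟩
    rw [Subgroup.orderOf_mk]
    rw [Nat.coprime_comm, hq.coprime_iff_not_dvd]
    intro h3
    exact hPi (hw.2 q hq h3)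
  obtain ⟨u, hu, rfl⟩ := h2 hy
  have h3 : orderOf (K.subtype u) = orderOf u := orderOf_injective _ (subtype_injective _) u
  rw [h3] at hd
  have h4 : orderOf u ∣ Nat.card K1 := by
    have := orderOf_dvd_natCard (⟨u, hu⟩ : K1)
    rwa [← orderOf_submonoid] at this
  exact hq.one_lt.ne' (Nat.eq_one_of_dvd_coprimes hK1 (hd.trans h4) dvd_rfl)

theorem HH_nil {x : G} (hx : x ≠ 1) : Group.IsNilpotent (HH x) := by
  have hnil := nil_comm (hNA _ (cent_lt hG hx))
  have h1 : HH x ≤ ⁅centralizer ({x} : Set G), centralizer ({x} : Set G)⁆ := by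
    rw [HH, closure_le]
    intro w hw
    exact hw.1.1
  exact Group.nilpotent_of_mulEquiv (Subgroup.subgroupOfEquivOfLe h1)

/-- in terms of elements: an element of `HH x` is trivial as soon as its powers of prime order
`q` do not exist for the primes `q` of `HH x` -/
theorem HH_eq_one {x : G} (hx : (orderOf x).Prime) {y : G} (hy : y ∈ HH x)
    (h : ∀ q : ℕ, q.Prime → PiQ x q → ∀ w ∈ zpowers y, w ∈ KS (orderOf x) (centralizer {x}) →
      orderOf w = q → False) : y = 1 := by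
  by_contra hy1
  have h1 : orderOf y ≠ 1 := fun h2 => hy1 (orderOf_eq_one_iff.mp h2)
  obtain ⟨q, hq, hd⟩ := Nat.exists_prime_and_dvd h1
  have hyS := (mem_HH hG hNA hx).mp hy
  have hx1 : x ≠ 1 := by rintro rfl; rw [orderOf_one] at hx; exact Nat.not_prime_one hx
  have : Fact (orderOf x).Prime := ⟨hx⟩
  obtain ⟨K, hK⟩ := exists_isKp (p := orderOf x) (hNA _ (cent_lt hG hx1))
  have hyK : y ∈ K := (hK.mem y).mpr hyS.1
  have hw : y ^ (orderOf y / q) ∈ zpowers y := pow_mem (mem_zpowers y) _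
  refine h q hq (hyS.2 q hq hd) (y ^ (orderOf y / q)) hw ?_ ?_
  · exact (hK.mem _).mp ((zpowers_le.mpr hyK) hw)
  · exact orderOf_pow_orderOf_div (orderOf_pos y).ne' hd

end

end H57.FT
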