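import Pool.Agent.H57.FT.Defs
import Pool.Agent.H3.FT.Cop1
import Pool.Agent.H3.FT.Cop2
import Pool.Agent.H3.FT.Cop3

/-!
Elementary facts for section 3: parts of nilpotent subgroups, proper subgroups, `HH` as a set.
-/

namespace H57.FT

open Subgroup H51.FT
open scoped Pointwise commutatorElement

variable {G : Type*} [Group G]

/-- the `q`-part of a nilpotent subgroup -/
lemma exists_qpart [Finite G] {K : Subgroup G} (hK : Group.IsNilpotent K) {q : ℕ} (hq : q.Prime) :
    ∃ T : Subgroup G, T ≤ K ∧ IsPGroup q T ∧ ∀ x, x ∈ T ↔ x ∈ K ∧ ∃ k : ℕ, x ^ q ^ k = 1 := by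
  have : Fact q.Prime := ⟨hq⟩
  refine ⟨((default : Sylow q K) : Subgroup K).map K.subtype, map_subtype_le _,
    (default : Sylow q K).2.map _, ?_⟩
  intro x
  constructor
  · rintro ⟨y, hy, rfl⟩
    refine ⟨y.2, ?_⟩
    obtain ⟨k, hk⟩ := (default : Sylow q K).2 ⟨y, hy⟩
    refine ⟨k, ?_⟩
    have h1 : y ^ q ^ k = 1 := congrArg Subtype.val hk
    have h2 := congrArg (Subtype.val) h1
    simpa using h2
  · rintro ⟨hx, k, hk⟩
    refine ⟨⟨x, hx⟩, ?_, rfl⟩
    have hpz : IsPGroup q (zpowers (⟨x, hx⟩ : K)) :=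
      Pool.Agent.H3.FT.zpowers_pgroup (k := k) (Subtype.ext hk)
    obtain ⟨Q, hQ⟩ := hpz.exists_le_sylow
    have hQ2 : Q = default := by
      have := Sylow.unique_of_normal (default : Sylow q K) inferInstance
      exact Subsingleton.elim _ _
    rw [← hQ2]
    exact hQ (mem_zpowers _)

lemma orderOf_conj' (g x : G) : orderOf (g * x * g⁻¹) = orderOf x := IsKp.orderOf_conj g x

lemma mem_cent {x g : G} : g ∈ centralizer ({x} : Set G) ↔ g * x = x * g := by
  rw [mem_centralizer_iff]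
  constructor
  · intro h; exact (h x rfl).symm
  · intro h y hy
    rw [Set.mem_singleton_iff.mp hy]; exact h.symm

lemma mem_centS {P : Subgroup G} {g : G} : g ∈ centralizer (P : Set G) ↔ ∀ a ∈ P, a * g = g * a :=
  mem_centralizer_iff

section
variable [Finite G] [IsSimpleGroup G]

omit [Finite G] in
lemma center_bot (hG : _root_.commutator G = ⊤) : center G = ⊥ := by
  rcases IsSimpleGroup.eq_bot_or_eq_top_of_normal (center G) inferInstance with h | h
  · exact h
  · exfalso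
    have h1 : _root_.commutator G = ⊥ := by
      rw [_root_.commutator_def, commutator_eq_bot_iff_le_centralizer]
      intro g _
      rw [mem_centralizer_iff]
      intro y _
      have : y ∈ center G := h ▸ mem_top y
      exact (mem_center_iff.mp this g).symm
    rw [hG] at h1
    exact top_ne_bot h1

omit [Finite G] in
lemma cent_lt (hG : _root_.commutator G = ⊤) {x : G} (hx : x ≠ 1) :
    centralizer ({x} : Set G) < ⊤ := by
  rw [lt_top_iff_ne_top]
  intro h
  apply hx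
  have : x ∈ center G := by
    rw [mem_center_iff]
    intro g
    have hg : g ∈ centralizer ({x} : Set G) := h ▸ mem_top g
    exact mem_cent.mp hg
  rw [center_bot hG, mem_bot] at this
  exact this

end

/-- `p`-elements of `N_G(P)` lie in `P` -/
lemma mem_of_pelt {p : ℕ} [Fact p.Prime] (P : Sylow p G) {g : G}
    (hg : g ∈ normalizer (P : Set G)) {k : ℕ} (hk : g ^ p ^ k = 1) : g ∈ P := by
  have h1 : IsPGroup p (zpowers g) := Pool.Agent.H3.FT.zpowers_pgroup hk
  have h2 : zpowers g ≤ normalizer (P : Set G) := zpowers_le.mpr hg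
  have h3 : IsPGroup p ((P : Subgroup G) ⊔ zpowers g : Subgroup G) :=
    IsPGroup.to_sup_of_normal_left' P.2 h1 h2
  have h4 := P.3 h3 le_sup_left
  have h5 : zpowers g ≤ P := by
    calc zpowers g ≤ (P : Subgroup G) ⊔ zpowers g := le_sup_right
      _ = P := h4
  exact h5 (mem_zpowers g)

lemma exists_pow_of_mem {p : ℕ} {P : Subgroup G} (hP : IsPGroup p P) {g : G} (hg : g ∈ P) :
    ∃ k : ℕ, g ^ p ^ k = 1 := by
  obtain ⟨k, hk⟩ := hP ⟨g, hg⟩
  exact ⟨k, by simpa using congrArg Subtype.val hk⟩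

lemma order_pow {p : ℕ} {P : Subgroup G} (hP : IsPGroup p P) (hp : p.Prime) {g : G} (hg : g ∈ P)
    {q : ℕ} (hq : q.Prime) (hd : q ∣ orderOf g) : q = p := by
  obtain ⟨k, hk⟩ := exists_pow_of_mem hP hg
  have h1 : q ∣ p ^ k := hd.trans (orderOf_dvd_of_pow_eq_one hk)
  exact (Nat.prime_dvd_prime_iff_eq hq hp).mp (hq.dvd_of_dvd_pow h1)

lemma eq_one_of_cop {p : ℕ} {P : Subgroup G} (hP : IsPGroup p P) {g : G}
    (hg : g ∈ P) (hc : (orderOf g).Coprime p) : g = 1 := by
  obtain ⟨k, hk⟩ := exists_pow_of_mem hP hg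
  have h1 : orderOf g ∣ p ^ k := orderOf_dvd_of_pow_eq_one hk
  have h2 : orderOf g = 1 := Nat.Coprime.eq_one_of_dvd (hc.pow_right k) h1
  exact orderOf_eq_one_iff.mp h2

/-- `p'`-elements of `[L,L]` which normalise the `p`-group `P` centralise `L ⊓ P`. -/
lemma KS_cent {p : ℕ} {L P : Subgroup G} (hP : IsPGroup p P) {K : Subgroup G}
    [Finite G] (hK : IsKp p L K) {v : G} (hv : v ∈ K) (hvP : v ∈ normalizer (P : Set G)) {r : G}
    (hr : r ∈ P) (hrL : r ∈ L) : r * v = v * r := by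
  have h1 : r * v * r⁻¹ * v⁻¹ ∈ K :=
    K.mul_mem ((mem_normalizer_iff.mp (hK.le_normalizer hrL) v).mp hv) (K.inv_mem hv)
  have h2 : r * v * r⁻¹ * v⁻¹ ∈ P := by
    have : r * (v * r⁻¹ * v⁻¹) ∈ P :=
      P.mul_mem hr ((mem_normalizer_iff.mp hvP r⁻¹).mp (P.inv_mem hr))
    have e : r * (v * r⁻¹ * v⁻¹) = r * v * r⁻¹ * v⁻¹ := by group
    rwa [e] at this
  have h3 : r * v * r⁻¹ * v⁻¹ = 1 := eq_one_of_cop hP h2 ((hK.mem _).mp h1).2
  calc r * v = r * v * r⁻¹ * v⁻¹ * (v * r) := by group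
    _ = v * r := by rw [h3, one_mul]

end H57.FT
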